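import Mathlib

/-!
# Spanning subgraphs with bounded degrees: the structure theorem

For a connected spanning subgraph `T` of `Γ` with `deg T ≤ b` there is a set `X` of vertices of
degree exactly `b`, such that all edges of `Γ` outside of `X` join vertices of the same component of
`T - X`, and every vertex outside of `X` has degree less than `b` in another such subgraph.
-/

namespace Pool.Agent.X250.Ham

open Relation

variable {V : Type*}

/-- Adjacent and outside of `X`. -/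
def St (T : SimpleGraph V) (X : Set V) (a c : V) : Prop := T.Adj a c ∧ a ∉ X ∧ c ∉ X

/-- In the same component of `T - X`. -/
def Cn (T : SimpleGraph V) (X : Set V) : V → V → Prop := ReflTransGen (St T X)

/-- The degree. -/
noncomputable def dg (T : SimpleGraph V) (v : V) : ℕ := (T.neighborSet v).ncard

lemma St.symm {T : SimpleGraph V} {X : Set V} {a c : V} (h : St T X a c) : St T X c a :=
  ⟨h.1.symm, h.2.2, h.2.1⟩

lemma Cn.symm {T : SimpleGraph V} {X : Set V} {a c : V} (h : Cn T X a c) : Cn T X c a := by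
  induction h with
  | refl => exact ReflTransGen.refl
  | tail _ h2 ih => exact ReflTransGen.head h2.symm ih

lemma Cn.trans {T : SimpleGraph V} {X : Set V} {a c e : V} (h : Cn T X a c) (h' : Cn T X c e) :
    Cn T X a e := ReflTransGen.trans h h'

lemma Cn.lift {T T' : SimpleGraph V} {X Y : Set V} (h : ∀ a c, St T X a c → Cn T' Y a c) {a c : V}
    (hac : Cn T X a c) : Cn T' Y a c := by
  induction hac with
  | refl => exact ReflTransGen.refl
  | tail _ h2 ih => exact ih.trans (h _ _ h2)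

lemma Cn.mono {T : SimpleGraph V} {X Y : Set V} (hXY : X ⊆ Y) {a c : V} (h : Cn T Y a c) :
    Cn T X a c :=
  Cn.lift (fun _ _ h => ReflTransGen.single
    ⟨h.1, fun h' => h.2.1 (hXY h'), fun h' => h.2.2 (hXY h')⟩) h

lemma Cn.notMem {T : SimpleGraph V} {X : Set V} {a c : V} (h : Cn T X a c) (ha : a ∉ X) :
    c ∉ X := by
  induction h with
  | refl => exact ha
  | tail _ h2 _ => exact h2.2.2

/-- Subgraphs which arise from `T` by changes in the components of `T - X`. -/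
structure Fam (Γ T : SimpleGraph V) (b : V → ℕ) (X : Set V) (T' : SimpleGraph V) : Prop where
  le : T' ≤ Γ
  agree : ∀ x ∈ X, ∀ y, T'.Adj x y ↔ T.Adj x y
  inner : ∀ a c, St T' X a c → Cn T X a c
  outer : ∀ a c, St T X a c → Cn T' X a c
  bound : ∀ v, dg T' v ≤ b v

variable {Γ T : SimpleGraph V} {b : V → ℕ}

lemma Fam.mono {X Y : Set V} (hXY : X ⊆ Y) {T' : SimpleGraph V} (h : Fam Γ T b Y T') :
    Fam Γ T b X T' := by
  refine ⟨h.le, fun x hx y => h.agree x (hXY hx) y, ?_, ?_, h.bound⟩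
  · intro a c hac
    by_cases ha : a ∈ Y
    · exact ReflTransGen.single ⟨(h.agree a ha c).1 hac.1, hac.2⟩
    · by_cases hc : c ∈ Y
      · exact ReflTransGen.single ⟨((h.agree c hc a).1 hac.1.symm).symm, hac.2⟩
      · exact (h.inner a c ⟨hac.1, ha, hc⟩).mono hXY
  · intro a c hac
    by_cases ha : a ∈ Y
    · exact ReflTransGen.single ⟨(h.agree a ha c).2 hac.1, hac.2⟩
    · by_cases hc : c ∈ Y
      · exact ReflTransGen.single ⟨((h.agree c hc a).2 hac.1.symm).symm, hac.2⟩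
      · exact (h.outer a c ⟨hac.1, ha, hc⟩).mono hXY

/-- The tight vertices. -/
def Ft (Γ T : SimpleGraph V) (b : V → ℕ) (X : Set V) : Set V :=
  {v | ∀ T', Fam Γ T b X T' → b v ≤ dg T' v}

lemma Ft_mono : Monotone (Ft Γ T b) := by
  intro X Y hXY v hv T' hT'
  exact hv T' (hT'.mono hXY)

/-- First entrance. -/
lemma first_entrance {r : V → V → Prop} (Z : Set V) {v u : V} (h : ReflTransGen r v u)
    (hv : v ∉ Z) (hu : u ∈ Z) :
    ∃ w z, w ∉ Z ∧ z ∈ Z ∧ r w z ∧ ReflTransGen (fun a c => r a c ∧ a ∉ Z ∧ c ∉ Z) v w := by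
  have key : ∀ y, ReflTransGen r v y →
      (ReflTransGen (fun a c => r a c ∧ a ∉ Z ∧ c ∉ Z) v y ∧ y ∉ Z) ∨
      ∃ w z, w ∉ Z ∧ z ∈ Z ∧ r w z ∧ ReflTransGen (fun a c => r a c ∧ a ∉ Z ∧ c ∉ Z) v w := by
    intro y hy
    induction hy with
    | refl => exact Or.inl ⟨ReflTransGen.refl, hv⟩
    | @tail p q _ h5 ih =>
      rcases ih with ⟨h6, h7⟩ | h6
      · by_cases hq : q ∈ Z
        · exact Or.inr ⟨p, q, h7, hq, h5, h6⟩
        · exact Or.inl ⟨ReflTransGen.tail h6 ⟨h5, h7, hq⟩, hq⟩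
      · exact Or.inr h6
  rcases key u h with h1 | h1
  · exact absurd hu h1.2
  · exact h1

/-- The patch of two members of the family. -/
def patch (Z : Set V) (T₁ T₂ : SimpleGraph V) : SimpleGraph V where
  Adj a c := (a ∈ Z ∧ c ∈ Z ∧ T₁.Adj a c) ∨ (¬(a ∈ Z ∧ c ∈ Z) ∧ T₂.Adj a c)
  symm := ⟨fun a c h => by
    rcases h with ⟨h1, h2, h3⟩ | ⟨h1, h2⟩
    · exact Or.inl ⟨h2, h1, h3.symm⟩
    · exact Or.inr ⟨fun h => h1 ⟨h.2, h.1⟩, h2.symm⟩⟩
  loopless := ⟨fun a h => by
    rcases h with ⟨_, _, h3⟩ | ⟨_, h2⟩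
    · exact T₁.irrefl h3
    · exact T₂.irrefl h2⟩

lemma patch_fam {X : Set V} {T₁ T₂ : SimpleGraph V} (h1 : Fam Γ T b X T₁) (h2 : Fam Γ T b X T₂)
    {u v : V} (hu : u ∉ X) (huv : ¬ Cn T X u v) (hdu : dg T₁ u < b u)
    (hdv : dg T₂ v < b v) :
    ∃ T', Fam Γ T b X T' ∧ dg T' u < b u ∧ dg T' v < b v := by
  set Z : Set V := {z | Cn T X u z} with hZ
  have hZX : ∀ z ∈ Z, z ∉ X := fun z hz => Cn.notMem hz hu
  have hZc : ∀ a ∈ Z, ∀ c, Cn T X a c → c ∈ Z := fun a ha c hc => Cn.trans ha hc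
  have hn1 : ∀ a ∈ Z, (patch Z T₁ T₂).neighborSet a = T₁.neighborSet a := by
    intro a ha
    ext c
    simp only [SimpleGraph.mem_neighborSet, patch]
    by_cases hc : c ∈ Z
    · simp [ha, hc]
    · simp only [ha, hc, and_false, false_and, not_false_eq_true, true_and, false_or]
      by_cases hcX : c ∈ X
      · have e1 := h1.agree c hcX a
        have e2 := h2.agree c hcX a
        rw [SimpleGraph.adj_comm, e2, ← e1, SimpleGraph.adj_comm]
      · constructor
        · intro h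
          exact absurd (hZc a ha c (h2.inner a c ⟨h, hZX a ha, hcX⟩)) hc
        · intro h
          exact absurd (hZc a ha c (h1.inner a c ⟨h, hZX a ha, hcX⟩)) hc
  have hn2 : ∀ a, a ∉ Z → (patch Z T₁ T₂).neighborSet a = T₂.neighborSet a := by
    intro a ha
    ext c
    simp [SimpleGraph.mem_neighborSet, patch, ha]
  refine ⟨patch Z T₁ T₂, ⟨?_, ?_, ?_, ?_, ?_⟩, ?_, ?_⟩
  · intro a c h
    rcases h with ⟨_, _, h3⟩ | ⟨_, h3⟩
    · exact h1.le h3
    · exact h2.le h3
  · intro x hx y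
    have hxZ : x ∉ Z := fun h => hZX x h hx
    rw [← h2.agree x hx y]
    simp [patch, hxZ]
  · rintro a c ⟨h, ha, hc⟩
    rcases h with ⟨_, _, h3⟩ | ⟨_, h3⟩
    · exact h1.inner a c ⟨h3, ha, hc⟩
    · exact h2.inner a c ⟨h3, ha, hc⟩
  · rintro a c ⟨h, ha, hc⟩
    by_cases haZ : a ∈ Z
    · have h3 := h1.outer a c ⟨h, ha, hc⟩
      have key : ∀ y, Cn T₁ X a y → Cn (patch Z T₁ T₂) X a y ∧ y ∈ Z := by
        intro y hy
        induction hy with
        | refl => exact ⟨ReflTransGen.refl, haZ⟩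
        | @tail p q _ h5 ih =>
          have hq : q ∈ Z := hZc p ih.2 q (h1.inner p q h5)
          exact ⟨ReflTransGen.tail ih.1 ⟨Or.inl ⟨ih.2, hq, h5.1⟩, h5.2⟩, hq⟩
      exact (key c h3).1
    · have h3 := h2.outer a c ⟨h, ha, hc⟩
      have key : ∀ y, Cn T₂ X a y → Cn (patch Z T₁ T₂) X a y ∧ y ∉ Z := by
        intro y hy
        induction hy with
        | refl => exact ⟨ReflTransGen.refl, haZ⟩
        | @tail p q _ h5 ih =>
          have hq : q ∉ Z := fun hq => ih.2 (hZc q hq p (h2.inner p q h5).symm)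
          exact ⟨ReflTransGen.tail ih.1 ⟨Or.inr ⟨fun h => ih.2 h.1, h5.1⟩, h5.2⟩, hq⟩
      exact (key c h3).1
  · intro a
    by_cases ha : a ∈ Z
    · unfold dg
      rw [hn1 a ha]
      exact h1.bound a
    · unfold dg
      rw [hn2 a ha]
      exact h2.bound a
  · unfold dg
    rw [hn1 u ReflTransGen.refl]
    exact hdu
  · unfold dg
    rw [hn2 v huv]
    exact hdv

/-- The exchange. -/
def exch (T' : SimpleGraph V) (u v w z : V) (huv : u ≠ v) : SimpleGraph V where
  Adj a c := (T'.Adj a c ∧ s(a, c) ≠ s(w, z)) ∨ s(a, c) = s(u, v)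
  symm := ⟨fun a c h => by
    rcases h with ⟨h1, h2⟩ | h1
    · exact Or.inl ⟨h1.symm, by rw [Sym2.eq_swap]; exact h2⟩
    · exact Or.inr (by rw [Sym2.eq_swap]; exact h1)⟩
  loopless := ⟨fun a h => by
    rcases h with ⟨h1, _⟩ | h1
    · exact T'.irrefl h1
    · rw [Sym2.eq_iff] at h1
      rcases h1 with ⟨h1, h2⟩ | ⟨h1, h2⟩
      · exact huv (h1.symm.trans h2)
      · exact huv (h2.symm.trans h1)⟩

lemma rtg_mono {r r' : V → V → Prop} (h : ∀ a c, r a c → r' a c) {a c : V}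
    (hac : ReflTransGen r a c) : ReflTransGen r' a c := by
  induction hac with
  | refl => exact ReflTransGen.refl
  | tail _ h2 ih => exact ih.tail (h _ _ h2)

variable [Finite V]

lemma exchange {Y : Set V} {T' : SimpleGraph V} (hT' : Fam Γ T b Y T') {u v : V}
    (hYF : Y ⊆ Ft Γ T b Y) (hu : u ∉ Ft Γ T b Y) (hv : v ∉ Ft Γ T b Y) (hc : Cn T' Y u v)
    (hn : ¬ Cn T' (Ft Γ T b Y) u v) (hdu : dg T' u < b u) (hdv : dg T' v < b v)
    (hΓ : Γ.Adj u v) : False := by
  set F := Ft Γ T b Y with hF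
  set Z : Set V := {z | Cn T' F u z} with hZ
  have huZ : u ∈ Z := ReflTransGen.refl
  have hZF : ∀ z ∈ Z, z ∉ F := fun z hz => Cn.notMem hz hu
  obtain ⟨w, z, hwZ, hzZ, hwz, hvw⟩ := first_entrance Z hc.symm hn huZ
  have hwF : w ∈ F := by
    by_contra hw
    exact hwZ (ReflTransGen.tail hzZ ⟨hwz.1.symm, hZF z hzZ, hw⟩)
  have hwu : w ≠ u := fun h => hu (h ▸ hwF)
  have hwv : w ≠ v := fun h => hv (h ▸ hwF)
  have huv : u ≠ v := hΓ.ne
  have huY : u ∉ Y := fun h => hu (hYF h)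
  have hvY : v ∉ Y := fun h => hv (hYF h)
  set T'' := exch T' u v w z huv with hT''
  have hA : ∀ a c, T''.Adj a c ↔ ((T'.Adj a c ∧ s(a, c) ≠ s(w, z)) ∨ s(a, c) = s(u, v)) :=
    fun a c => Iff.rfl
  -- the connection between w and z
  have c1 : Cn T'' Y v w := by
    refine rtg_mono ?_ hvw
    rintro a c ⟨⟨h1, h2, h3⟩, h4, h5⟩
    refine ⟨(hA a c).2 (Or.inl ⟨h1, ?_⟩), h2, h3⟩
    intro h6
    rw [Sym2.eq_iff] at h6
    rcases h6 with ⟨_, h6⟩ | ⟨h6, _⟩
    · exact h5 (h6 ▸ hzZ)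
    · exact h4 (h6 ▸ hzZ)
  have c2 : Cn T'' Y u z := by
    have key : ∀ y, Cn T' F u y → Cn T'' Y u y ∧ y ∈ Z := by
      intro y hy
      induction hy with
      | refl => exact ⟨ReflTransGen.refl, huZ⟩
      | @tail p q h4 h5 ih =>
        have hq : q ∈ Z := ReflTransGen.tail h4 h5
        refine ⟨ReflTransGen.tail ih.1 ⟨(hA p q).2 (Or.inl ⟨h5.1, ?_⟩),
          fun h => h5.2.1 (hYF h), fun h => h5.2.2 (hYF h)⟩, hq⟩
        intro h6
        rw [Sym2.eq_iff] at h6
        rcases h6 with ⟨h6, _⟩ | ⟨_, h6⟩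
        · exact hwZ (h6 ▸ ih.2)
        · exact hwZ (h6 ▸ hq)
    exact (key z hzZ).1
  have c3 : Cn T'' Y u v := ReflTransGen.single ⟨(hA u v).2 (Or.inr rfl), huY, hvY⟩
  have c4 : Cn T'' Y w z := (c3.trans c1).symm.trans c2
  have c5 : ∀ a c, Cn T' Y a c → Cn T'' Y a c := by
    intro a c hac
    refine Cn.lift ?_ hac
    intro p q hpq
    by_cases h6 : s(p, q) = s(w, z)
    · rw [Sym2.eq_iff] at h6
      rcases h6 with ⟨h6, h7⟩ | ⟨h6, h7⟩
      · rw [h6, h7]
        exact c4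
      · rw [h6, h7]
        exact c4.symm
    · exact ReflTransGen.single ⟨(hA p q).2 (Or.inl ⟨hpq.1, h6⟩), hpq.2⟩
  have c6 : ∀ a c, Cn T' Y a c → Cn T Y a c := fun a c h => Cn.lift hT'.inner h
  -- degrees
  have d1 : ∀ a, a ≠ u → a ≠ v → T''.neighborSet a ⊆ T'.neighborSet a := by
    intro a h1 h2 c hac
    rcases (hA a c).1 hac with h3 | h3
    · exact h3.1
    · rw [Sym2.eq_iff] at h3
      rcases h3 with ⟨h3, _⟩ | ⟨h3, _⟩
      · exact absurd h3 h1
      · exact absurd h3 h2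
  have d2 : T''.neighborSet u ⊆ insert v (T'.neighborSet u) := by
    intro c hac
    rcases (hA u c).1 hac with h3 | h3
    · exact Or.inr h3.1
    · rw [Sym2.eq_iff] at h3
      rcases h3 with ⟨_, h3⟩ | ⟨h3, _⟩
      · exact Or.inl h3
      · exact absurd h3 huv
  have d3 : T''.neighborSet v ⊆ insert u (T'.neighborSet v) := by
    intro c hac
    rcases (hA v c).1 hac with h3 | h3
    · exact Or.inr h3.1
    · rw [Sym2.eq_iff] at h3
      rcases h3 with ⟨h3, _⟩ | ⟨_, h3⟩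
      · exact absurd h3 huv.symm
      · exact Or.inl h3
  have d4 : dg T'' w < dg T' w := by
    refine Set.ncard_lt_ncard ⟨d1 w hwu hwv, ?_⟩ (Set.toFinite _)
    intro hsub
    have h1 : z ∈ T'.neighborSet w := hwz.1
    rcases (hA w z).1 (hsub h1) with h2 | h2
    · exact h2.2 rfl
    · rw [Sym2.eq_iff] at h2
      rcases h2 with ⟨h2, _⟩ | ⟨h2, _⟩
      · exact hwu h2
      · exact hwv h2
  have hfam : Fam Γ T b Y T'' := by
    refine ⟨?_, ?_, ?_, ?_, ?_⟩
    · intro a c hac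
      rcases (hA a c).1 hac with h3 | h3
      · exact hT'.le h3.1
      · rw [Sym2.eq_iff] at h3
        rcases h3 with ⟨h3, h4⟩ | ⟨h3, h4⟩
        · rw [h3, h4]
          exact hΓ
        · rw [h3, h4]
          exact hΓ.symm
    · intro x hx y
      rw [← hT'.agree x hx y, hA]
      have h1 : s(x, y) ≠ s(w, z) := by
        intro h
        rw [Sym2.eq_iff] at h
        rcases h with ⟨h, _⟩ | ⟨h, _⟩
        · exact hwz.2.1 (h ▸ hx)
        · exact hwz.2.2 (h ▸ hx)
      have h2 : s(x, y) ≠ s(u, v) := by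
        intro h
        rw [Sym2.eq_iff] at h
        rcases h with ⟨h, _⟩ | ⟨h, _⟩
        · exact huY (h ▸ hx)
        · exact hvY (h ▸ hx)
      simp [h1, h2]
    · rintro a c ⟨h, ha, hc'⟩
      rcases (hA a c).1 h with h3 | h3
      · exact hT'.inner a c ⟨h3.1, ha, hc'⟩
      · rw [Sym2.eq_iff] at h3
        rcases h3 with ⟨h3, h4⟩ | ⟨h3, h4⟩
        · rw [h3, h4]
          exact c6 _ _ hc
        · rw [h3, h4]
          exact (c6 _ _ hc).symm
    · intro a c hac
      exact c5 a c (hT'.outer a c hac)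
    · intro a
      by_cases h1 : a = u
      · rw [h1]
        refine le_trans ?_ (Nat.succ_le_of_lt hdu)
        exact (Set.ncard_le_ncard d2 (Set.toFinite _)).trans (Set.ncard_insert_le _ _)
      · by_cases h2 : a = v
        · rw [h2]
          refine le_trans ?_ (Nat.succ_le_of_lt hdv)
          exact (Set.ncard_le_ncard d3 (Set.toFinite _)).trans (Set.ncard_insert_le _ _)
        · exact (Set.ncard_le_ncard (d1 a h1 h2) (Set.toFinite _)).trans (hT'.bound a)
  have h7 := hwF T'' hfam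
  have h8 := hT'.bound w
  omega

/-- The structure theorem. -/
theorem structure_thm (hT : T ≤ Γ) (hconn : ∀ u v, Cn T ∅ u v) (hb : ∀ v, dg T v ≤ b v) :
    ∃ X : Set V, (∀ x ∈ X, dg T x = b x) ∧
      (∀ u v, u ∉ X → v ∉ X → Γ.Adj u v → Cn T X u v) ∧
      (∀ v, v ∉ X → ∃ T' ≤ Γ, (∀ u v, Cn T' ∅ u v) ∧ (∀ v, dg T' v ≤ b v) ∧ dg T' v < b v) := by
  have hself : ∀ X, Fam Γ T b X T := fun X =>
    ⟨hT, fun _ _ _ => Iff.rfl, fun a c h => ReflTransGen.single h,
      fun a c h => ReflTransGen.single h, hb⟩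
  -- the chain
  let Xs : ℕ → Set V := fun n => (Ft Γ T b)^[n] ∅
  have hsucc : ∀ n, Xs (n + 1) = Ft Γ T b (Xs n) := fun n => Function.iterate_succ_apply' _ _ _
  have hmono : Monotone Xs := by
    refine monotone_nat_of_le_succ ?_
    intro n
    induction n with
    | zero => exact Set.empty_subset _
    | succ n ih =>
      rw [hsucc n, hsucc (n + 1)]
      exact Ft_mono ih
  obtain ⟨N, hN⟩ : ∃ N, ∀ m, N ≤ m → Xs N = Xs m := by
    have := WellFoundedGT.monotone_chain_condition (α := Set V) ⟨Xs, hmono⟩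
    exact this
  set X := Xs N with hX
  have hfix : Ft Γ T b X = X := by
    rw [hX, ← hsucc]
    exact (hN (N + 1) (Nat.le_succ N)).symm
  have hfam_conn : ∀ Y T', Fam Γ T b Y T' → ∀ u v, Cn T' ∅ u v := by
    intro Y T' hT' u v
    exact Cn.lift (hT'.mono (Set.empty_subset Y)).outer (hconn u v)
  refine ⟨X, ?_, ?_, ?_⟩
  · intro x hx
    rw [← hfix] at hx
    exact le_antisymm (hb x) (hx T (hself X))
  · intro u v hu hv hΓ
    by_contra hcon
    have hu' : u ∉ Ft Γ T b X := by rw [hfix]; exact hu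
    have hv' : v ∉ Ft Γ T b X := by rw [hfix]; exact hv
    simp only [Ft, Set.mem_ofPred_eq, not_forall, not_le] at hu' hv'
    obtain ⟨T₁, h1, hdu⟩ := hu'
    obtain ⟨T₂, h2, hdv⟩ := hv'
    obtain ⟨T', hT', hdu', hdv'⟩ := patch_fam h1 h2 hu hcon hdu hdv
    have hncX : ¬ Cn T' X u v := fun h => hcon (Cn.lift hT'.inner h)
    classical
    have hex : ∃ n, ¬ Cn T' (Xs n) u v := ⟨N, hncX⟩
    obtain ⟨n, hn, hmin⟩ : ∃ n, ¬ Cn T' (Xs n) u v ∧ ∀ m < n, Cn T' (Xs m) u v :=
      ⟨Nat.find hex, Nat.find_spec hex, fun m hm => by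
        have := Nat.find_min hex hm
        rwa [not_not] at this⟩
    have hXsN : ∀ n, Xs n ⊆ X := by
      intro n
      rcases le_total n N with h | h
      · exact hmono h
      · exact (hN n h).symm.subset
    cases n with
    | zero => exact hn (hfam_conn X T' hT' u v)
    | succ n =>
      rw [hsucc] at hn
      refine exchange (hT'.mono (hXsN n)) (Y := Xs n) ?_ ?_ ?_ (hmin n (Nat.lt_succ_self n)) hn hdu'
        hdv' hΓ
      · rw [← hsucc]
        exact hmono (Nat.le_succ n)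
      · rw [← hsucc]
        exact fun h => hu (hXsN _ h)
      · rw [← hsucc]
        exact fun h => hv (hXsN _ h)
  · intro v hv
    have hv' : v ∉ Ft Γ T b X := by rw [hfix]; exact hv
    simp only [Ft, Set.mem_ofPred_eq, not_forall, not_le] at hv'
    obtain ⟨T', hT', hd⟩ := hv'
    exact ⟨T', hT'.le, hfam_conn X T' hT', hT'.bound, hd⟩

end Pool.Agent.X250.Ham
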