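import Mathlib
import Pool.Agent.X250.Ham.Fix

/-!
# Connected spanning subgraphs of maximal degree three

A connected graph of maximal degree `d`, all of whose proper nonempty sets of vertices have at least
`d` boundary edges, has a connected spanning subgraph of maximal degree at most three.
-/

namespace Pool.Agent.X250.Ham

open Relation Finset

open scoped Classical in
/-- The ordered pairs of adjacent vertices. -/
noncomputable def prs {V : Type*} [Fintype V] (G : SimpleGraph V) : Finset (V × V) :=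
  univ.filter fun p => G.Adj p.1 p.2

variable {V : Type*} [Fintype V]

lemma mem_prs (G : SimpleGraph V) (p : V × V) : p ∈ prs G ↔ G.Adj p.1 p.2 := by
  simp [prs]

omit [Fintype V] in
lemma reach_iff (G : SimpleGraph V) (u v : V) : Cn G ∅ u v ↔ G.Reachable u v := by
  rw [SimpleGraph.reachable_iff_reflTransGen]
  constructor
  · exact fun h => rtg_mono (fun a c h => h.1) h
  · exact fun h => rtg_mono (fun a c h => ⟨h, Set.notMem_empty _, Set.notMem_empty _⟩) h

lemma edge_nat (G : SimpleGraph V) [Fintype G.edgeSet] : #G.edgeFinset = Nat.card G.edgeSet := by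
  rw [SimpleGraph.edgeFinset_card, Nat.card_eq_fintype_card]

lemma two_mul_nat (G : SimpleGraph V) : 2 * Nat.card G.edgeSet = #(prs G) := by
  classical
  have h := G.two_mul_card_edgeFinset
  have h1 := edge_nat G
  rw [← h1, h]
  refine congrArg Finset.card ?_
  ext p
  simp [prs]

lemma two_mul_card (G : SimpleGraph V) [Fintype G.edgeSet] : 2 * #G.edgeFinset = #(prs G) := by
  rw [edge_nat]
  exact two_mul_nat G

/-- A tree with `n` vertices. -/
lemma prs_tree {G : SimpleGraph V} (h : G.IsTree) : #(prs G) + 2 = 2 * Fintype.card V := by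
  classical
  have h1 := h.card_edgeFinset
  have h2 := two_mul_card G
  omega

lemma prs_mono {G G' : SimpleGraph V} (h : G ≤ G') : #(prs G) ≤ #(prs G') := by
  refine card_le_card ?_
  intro p hp
  rw [mem_prs] at hp ⊢
  exact h hp

lemma prs_conn {G : SimpleGraph V} (h : G.Connected) : 2 * Fintype.card V ≤ #(prs G) + 2 := by
  obtain ⟨T, hT, hTT⟩ := h.exists_isTree_le
  rw [← prs_tree hTT]
  have := prs_mono hT
  omega

/-- The number of components. -/
lemma card_components (F : SimpleGraph V) [Fintype F.ConnectedComponent] [Nonempty V] :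
    2 * Fintype.card V ≤ #(prs F) + 2 * Fintype.card F.ConnectedComponent := by
  classical
  -- representatives
  let rep : F.ConnectedComponent → V := fun c => c.out
  have hrep : ∀ v, F.Reachable v (rep (F.connectedComponentMk v)) := by
    intro v
    have h1 : F.connectedComponentMk (rep (F.connectedComponentMk v)) =
        F.connectedComponentMk v := Quot.out_eq _
    exact (SimpleGraph.ConnectedComponent.exact h1).symm
  obtain ⟨v0⟩ := ‹Nonempty V›
  set c0 := F.connectedComponentMk v0
  let st : SimpleGraph V :=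
    { Adj := fun a c => a ≠ c ∧ ((a = rep c0 ∧ ∃ k, c = rep k) ∨ (c = rep c0 ∧ ∃ k, a = rep k))
      symm := ⟨fun a c h => ⟨h.1.symm, h.2.symm⟩⟩
      loopless := ⟨fun a h => h.1 rfl⟩ }
  have hconn : (F ⊔ st).Connected := by
    have key : ∀ v, (F ⊔ st).Reachable v (rep c0) := by
      intro v
      have h1 : (F ⊔ st).Reachable v (rep (F.connectedComponentMk v)) :=
        (hrep v).mono le_sup_left
      refine h1.trans ?_
      by_cases h2 : rep (F.connectedComponentMk v) = rep c0
      · rw [h2]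
      · refine SimpleGraph.Adj.reachable ?_
        rw [SimpleGraph.sup_adj]
        exact Or.inr ⟨h2, Or.inr ⟨rfl, _, rfl⟩⟩
    have : Nonempty V := ⟨v0⟩
    exact ⟨fun u v => (key u).trans (key v).symm⟩
  have h1 := prs_conn hconn
  have h2 : #(prs (F ⊔ st)) ≤ #(prs F) + #(prs st) := by
    refine (card_le_card ?_).trans (card_union_le _ _)
    intro p hp
    rw [mem_prs, SimpleGraph.sup_adj] at hp
    rw [mem_union, mem_prs, mem_prs]
    exact hp
  have h3 : #(prs st) + 2 ≤ 2 * Fintype.card F.ConnectedComponent := by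
    have h4 : prs st ⊆ ((univ.erase c0).image fun k => (rep c0, rep k)) ∪
        ((univ.erase c0).image fun k => (rep k, rep c0)) := by
      rintro ⟨a, c⟩ hp
      rw [mem_prs] at hp
      obtain ⟨h5, h6⟩ := hp
      simp only at h5 h6
      rw [mem_union, mem_image, mem_image]
      rcases h6 with ⟨rfl, k, rfl⟩ | ⟨rfl, k, rfl⟩
      · refine Or.inl ⟨k, ?_, rfl⟩
        rw [mem_erase]
        exact ⟨fun h => h5 (by rw [h]), mem_univ _⟩
      · refine Or.inr ⟨k, ?_, rfl⟩
        rw [mem_erase]
        exact ⟨fun h => h5 (by rw [h]), mem_univ _⟩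
    have h7 := (card_le_card h4).trans (card_union_le _ _)
    have h8 : #((univ.erase c0).image fun k => (rep c0, rep k)) ≤ #(univ.erase c0) :=
      card_image_le
    have h9 : #((univ.erase c0).image fun k => (rep k, rep c0)) ≤ #(univ.erase c0) :=
      card_image_le
    have h10 : #(univ.erase c0) + 1 = Fintype.card F.ConnectedComponent := by
      rw [card_erase_add_one (mem_univ _), card_univ]
    omega
  omega

/-- The graph `T - X` (the vertices in `X` are isolated). -/
def rest (T : SimpleGraph V) (X : Set V) : SimpleGraph V where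
  Adj := St T X
  symm := ⟨fun _ _ h => h.symm⟩
  loopless := ⟨fun _ h => T.irrefl h.1⟩

omit [Fintype V] in
lemma rest_reach (T : SimpleGraph V) (X : Set V) (u v : V) :
    (rest T X).Reachable u v ↔ Cn T X u v := by
  rw [SimpleGraph.reachable_iff_reflTransGen]
  rfl

variable [DecidableEq V]

/-- Pairs inside `X`. -/
lemma card_inside {T : SimpleGraph V} (hT : T.IsTree) (X : Finset V) (hX : X.Nonempty) :
    #((prs T).filter fun p => p.1 ∈ X ∧ p.2 ∈ X) + 2 ≤ 2 * #X := by
  classical
  have hac : (T.induce (X : Set V)).IsAcyclic := hT.isAcyclic.induce _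
  have hne : Nonempty (X : Set V) := by
    obtain ⟨x, hx⟩ := hX
    exact ⟨⟨x, hx⟩⟩
  have hfin : Fintype (X : Set V) := Fintype.ofFinite _
  obtain ⟨F0, h1, -, h2⟩ := (SimpleGraph.connected_top (V := (X : Set V))).exists_isTree_le_of_le_of_isAcyclic
    le_top hac
  have h3 := prs_tree h2
  have h4 : Fintype.card (X : Set V) = #X := by
    rw [← Nat.card_eq_fintype_card]
    simp
  have h5 : #((prs T).filter fun p => p.1 ∈ X ∧ p.2 ∈ X) ≤ #(prs F0) := by
    have h6 : ((prs T).filter fun p => p.1 ∈ X ∧ p.2 ∈ X) ⊆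
        (prs F0).image fun p => ((p.1 : V), (p.2 : V)) := by
      rintro ⟨a, c⟩ h
      rw [mem_filter, mem_prs] at h
      rw [mem_image]
      refine ⟨(⟨a, h.2.1⟩, ⟨c, h.2.2⟩), ?_, rfl⟩
      rw [mem_prs]
      apply h1
      exact h.1
    exact (card_le_card h6).trans card_image_le
  omega

lemma dg_eq (T : SimpleGraph V) (v : V) :
    dg T v = #((prs T).filter fun p => p.1 = v) := by
  classical
  unfold dg
  rw [Set.ncard_eq_toFinset_card']
  refine card_bij (fun c _ => (v, c)) ?_ ?_ ?_
  · intro c hc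
    rw [Set.mem_toFinset] at hc
    rw [mem_filter, mem_prs]
    exact ⟨hc, rfl⟩
  · intro c _ c' _ h
    exact (Prod.mk.inj h).2
  · rintro ⟨a, c⟩ h
    rw [mem_filter, mem_prs] at h
    obtain ⟨h1, h2⟩ := h
    simp only at h1 h2
    subst h2
    exact ⟨c, by rw [Set.mem_toFinset]; exact h1, rfl⟩

lemma dg_eq' (T : SimpleGraph V) (v : V) :
    dg T v = #((prs T).filter fun p => p.2 = v) := by
  classical
  rw [dg_eq]
  refine card_bij (fun p _ => (p.2, p.1)) ?_ ?_ ?_
  · rintro ⟨a, c⟩ h
    rw [mem_filter, mem_prs] at h ⊢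
    exact ⟨h.1.symm, h.2⟩
  · rintro ⟨a, c⟩ _ ⟨a', c'⟩ _ h
    obtain ⟨h1, h2⟩ := Prod.mk.inj h
    simp only at h1 h2
    rw [h1, h2]
  · rintro ⟨a, c⟩ h
    rw [mem_filter, mem_prs] at h
    refine ⟨(c, a), ?_, rfl⟩
    rw [mem_filter, mem_prs]
    exact ⟨h.1.symm, h.2⟩

/-- The number of components of `T - X`. -/
lemma many_components {T : SimpleGraph V} (hT : T.IsTree) (X : Finset V) (hX : X.Nonempty)
    (hd : ∀ x ∈ X, 3 ≤ dg T x) (F : SimpleGraph V) (hF : F = rest T (X : Set V))
    [Fintype F.ConnectedComponent] [DecidableEq F.ConnectedComponent] :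
    #X + 2 ≤ #((univ.filter fun v => v ∉ X).image F.connectedComponentMk) := by
  have hne : Nonempty V := ⟨hX.choose⟩
  have h1 := card_components F
  have h2 := prs_tree hT
  have h3 := card_inside hT X hX
  -- the partition of the pairs
  have hFp : prs F = (prs T).filter fun p => p.1 ∉ X ∧ p.2 ∉ X := by
    ext p
    rw [mem_prs, mem_filter, mem_prs, hF]
    rfl
  have hpart1 : #(prs T) = #((prs T).filter fun p => p.1 ∈ X) +
      #((prs T).filter fun p => p.1 ∉ X) :=
    (card_filter_add_card_filter_not (s := prs T) (fun p => p.1 ∈ X)).symm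
  have hpart2 : #((prs T).filter fun p => p.1 ∈ X) =
      #((prs T).filter fun p => p.1 ∈ X ∧ p.2 ∈ X) +
      #((prs T).filter fun p => p.1 ∈ X ∧ p.2 ∉ X) := by
    have := (card_filter_add_card_filter_not (s := (prs T).filter fun p => p.1 ∈ X)
      (fun p => p.2 ∈ X)).symm
    rw [filter_filter, filter_filter] at this
    exact this
  have hpart3 : #((prs T).filter fun p => p.1 ∉ X) =
      #((prs T).filter fun p => p.1 ∉ X ∧ p.2 ∈ X) + #(prs F) := by
    have := (card_filter_add_card_filter_not (s := (prs T).filter fun p => p.1 ∉ X)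
      (fun p => p.2 ∈ X)).symm
    rw [filter_filter, filter_filter] at this
    rw [hFp]
    exact this
  have hsym : #((prs T).filter fun p => p.1 ∉ X ∧ p.2 ∈ X) =
      #((prs T).filter fun p => p.1 ∈ X ∧ p.2 ∉ X) := by
    refine card_bij (fun p _ => (p.2, p.1)) ?_ ?_ ?_
    · rintro ⟨a, c⟩ h
      rw [mem_filter, mem_prs] at h ⊢
      exact ⟨h.1.symm, h.2.2, h.2.1⟩
    · rintro ⟨a, c⟩ _ ⟨a', c'⟩ _ h
      obtain ⟨h1, h2⟩ := Prod.mk.inj h
      simp only at h1 h2
      rw [h1, h2]
    · rintro ⟨a, c⟩ h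
      rw [mem_filter, mem_prs] at h
      refine ⟨(c, a), ?_, rfl⟩
      rw [mem_filter, mem_prs]
      exact ⟨h.1.symm, h.2.2, h.2.1⟩
  have hdeg : 3 * #X ≤ #((prs T).filter fun p => p.1 ∈ X) := by
    have h4 : #((prs T).filter fun p => p.1 ∈ X) =
        ∑ x ∈ X, #(((prs T).filter fun p => p.1 ∈ X).filter fun p => p.1 = x) :=
      card_eq_sum_card_fiberwise (by
        intro p hp
        exact (mem_filter.1 hp).2)
    rw [h4, mul_comm, ← smul_eq_mul]
    refine card_nsmul_le_sum X _ 3 ?_
    intro x hx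
    refine (hd x hx).trans ?_
    rw [dg_eq, filter_filter]
    refine card_le_card ?_
    intro p hp
    rw [mem_filter] at hp ⊢
    exact ⟨hp.1, by rw [hp.2]; exact hx, hp.2⟩
  -- components
  have hcc : Fintype.card F.ConnectedComponent ≤
      #((univ.filter fun v => v ∉ X).image F.connectedComponentMk) + #X := by
    have h5 : (univ : Finset F.ConnectedComponent) ⊆
        ((univ.filter fun v => v ∉ X).image F.connectedComponentMk) ∪
          X.image F.connectedComponentMk := by
      intro c _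
      induction c using SimpleGraph.ConnectedComponent.ind with | _ v => ?_
      rw [mem_union, mem_image, mem_image]
      by_cases hv : v ∈ X
      · exact Or.inr ⟨v, hv, rfl⟩
      · exact Or.inl ⟨v, by rw [mem_filter]; exact ⟨mem_univ _, hv⟩, rfl⟩
    have h6 := (card_le_card h5).trans (card_union_le _ _)
    have h7 : #(X.image F.connectedComponentMk) ≤ #X := card_image_le
    rw [card_univ] at h6
    omega
  omega

/-- The number of boundary edges. -/
noncomputable def bd (Γ : SimpleGraph V) (S : Set V) : ℕ :=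
  {p : V × V | p.1 ∈ S ∧ p.2 ∉ S ∧ Γ.Adj p.1 p.2}.ncard

/-- A spanning tree with large degrees on a separating set is impossible. -/
lemma no_sep {Γ T : SimpleGraph V} (d : ℕ) (hd : 0 < d) (hdeg : ∀ v, dg Γ v ≤ d)
    (hbd : ∀ S : Set V, S.Nonempty → S ≠ Set.univ → d ≤ bd Γ S) (hT : T.IsTree) (X : Finset V)
    (hX : X.Nonempty) (hdT : ∀ x ∈ X, 3 ≤ dg T x)
    (hsep : ∀ u v, u ∉ X → v ∉ X → Γ.Adj u v → Cn T (X : Set V) u v) : False := by
  classical
  obtain ⟨F, hF⟩ : ∃ F, F = rest T (X : Set V) := ⟨_, rfl⟩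
  have hfin : Fintype F.ConnectedComponent := Fintype.ofFinite _
  have h1 := many_components hT X hX hdT F hF
  set K := (univ.filter fun v => v ∉ X).image F.connectedComponentMk with hK
  -- the edges between X and the rest
  set B := (prs Γ).filter fun p => p.1 ∉ X ∧ p.2 ∈ X with hB
  have hB1 : #B ≤ #X * d := by
    by_contra hcon
    push Not at hcon
    obtain ⟨y, hy, hy'⟩ := exists_lt_card_fiber_of_mul_lt_card_of_maps_to
      (s := B) (t := X) (f := fun p => p.2) (fun p hp => (mem_filter.1 hp).2.2) hcon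
    have h2 := hdeg y
    rw [dg_eq'] at h2
    have h3 : #(B.filter fun p => p.2 = y) ≤ #((prs Γ).filter fun p => p.2 = y) := by
      refine card_le_card ?_
      intro p hp
      rw [mem_filter] at hp ⊢
      exact ⟨(mem_filter.1 hp.1).1, hp.2⟩
    omega
  have hB2 : #K * d ≤ #B := by
    by_contra hcon
    push Not at hcon
    obtain ⟨c, hc, hc'⟩ := exists_card_fiber_lt_of_card_lt_mul
      (s := B) (t := K) (f := fun p => F.connectedComponentMk p.1) hcon
    obtain ⟨v, hv, rfl⟩ := mem_image.1 hc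
    rw [mem_filter] at hv
    set S : Set V := {u | Cn T (X : Set V) v u} with hS
    have hSX : ∀ u ∈ S, u ∉ X := fun u hu => Cn.notMem hu hv.2
    have hSne : S.Nonempty := ⟨v, ReflTransGen.refl⟩
    have hSu : S ≠ Set.univ := by
      obtain ⟨x, hx⟩ := hX
      intro h
      have : x ∈ S := by rw [h]; exact Set.mem_univ _
      exact hSX x this hx
    have h2 := hbd S hSne hSu
    have h3 : bd Γ S ≤ #(B.filter fun p => F.connectedComponentMk p.1 =
        F.connectedComponentMk v) := by
      unfold bd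
      rw [Set.ncard_eq_toFinset_card']
      refine card_le_card ?_
      intro p hp
      rw [Set.mem_toFinset] at hp
      obtain ⟨hp1, hp2, hp3⟩ := hp
      rw [mem_filter, hB, mem_filter, mem_prs]
      refine ⟨⟨hp3, hSX _ hp1, ?_⟩, ?_⟩
      · by_contra hcon'
        exact hp2 (Cn.trans hp1 (hsep _ _ (hSX _ hp1) hcon' hp3))
      · rw [SimpleGraph.ConnectedComponent.eq, hF, rest_reach]
        exact Cn.symm hp1
    omega
  have h4 : #K * d ≤ #X * d := hB2.trans hB1
  have h5 : #K ≤ #X := Nat.le_of_mul_le_mul_right h4 hd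
  omega

/-- **Connected spanning subgraphs of maximal degree three.** -/
theorem exists_three (Γ : SimpleGraph V) [Nonempty V] (d : ℕ) (hd : 0 < d)
    (hdeg : ∀ v, dg Γ v ≤ d) (hconn : Γ.Connected)
    (hbd : ∀ S : Set V, S.Nonempty → S ≠ Set.univ → d ≤ bd Γ S) :
    ∃ T ≤ Γ, T.Connected ∧ ∀ v, dg T v ≤ 3 := by
  classical
  -- the minimal maximal degree
  have hex : ∃ k, ∃ T ≤ Γ, T.Connected ∧ ∀ v, dg T v ≤ k := ⟨d, Γ, le_rfl, hconn, hdeg⟩
  obtain ⟨k, ⟨T1, hT1, hT1c, hT1d⟩, hkmin⟩ : ∃ k, (∃ T ≤ Γ, T.Connected ∧ ∀ v, dg T v ≤ k) ∧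
      ∀ j < k, ¬ ∃ T ≤ Γ, T.Connected ∧ ∀ v, dg T v ≤ j :=
    ⟨Nat.find hex, Nat.find_spec hex, fun j hj => Nat.find_min hex hj⟩
  by_cases hk3 : k ≤ 3
  · exact ⟨T1, hT1, hT1c, fun v => (hT1d v).trans hk3⟩
  push Not at hk3
  exfalso
  -- the minimal number of vertices of degree k
  have hex2 : ∃ s, ∃ T ≤ Γ, T.Connected ∧ (∀ v, dg T v ≤ k) ∧
      {v | dg T v = k}.ncard = s := ⟨_, T1, hT1, hT1c, hT1d, rfl⟩
  obtain ⟨s, ⟨T2, hT2, hT2c, hT2d, hT2s⟩, hsmin⟩ : ∃ s, (∃ T ≤ Γ, T.Connected ∧
      (∀ v, dg T v ≤ k) ∧ {v | dg T v = k}.ncard = s) ∧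
      ∀ j < s, ¬ ∃ T ≤ Γ, T.Connected ∧ (∀ v, dg T v ≤ k) ∧ {v | dg T v = k}.ncard = j :=
    ⟨Nat.find hex2, Nat.find_spec hex2, fun j hj => Nat.find_min hex2 hj⟩
  obtain ⟨T, hTT2, hTtree⟩ := hT2c.exists_isTree_le
  have hdmono : ∀ v, dg T v ≤ dg T2 v := fun v =>
    Set.ncard_le_ncard (fun c hc => hTT2 hc) (Set.toFinite _)
  have hTΓ : T ≤ Γ := hTT2.trans hT2
  have hTd : ∀ v, dg T v ≤ k := fun v => (hdmono v).trans (hT2d v)
  set S : Set V := {v | dg T v = k} with hS
  have hTs : ∀ T' ≤ Γ, T'.Connected → (∀ v, dg T' v ≤ k) → S.ncard ≤ {v | dg T' v = k}.ncard := by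
    intro T' h1 h2 h3
    have h4 : S.ncard ≤ s := by
      rw [← hT2s]
      refine Set.ncard_le_ncard ?_ (Set.toFinite _)
      intro v hv
      have h5 : dg T v = k := hv
      have h6 := hdmono v
      have h7 := hT2d v
      show dg T2 v = k
      omega
    have h5 : s ≤ {v | dg T' v = k}.ncard := by
      by_contra hcon
      push Not at hcon
      exact hsmin _ hcon ⟨T', h1, h2, h3, rfl⟩
    exact h4.trans h5
  have hSne : S.Nonempty := by
    by_contra hcon
    rw [Set.not_nonempty_iff_eq_empty] at hcon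
    refine hkmin (k - 1) (by omega) ⟨T, hTΓ, hTtree.connected, fun v => ?_⟩
    have h1 := hTd v
    have h2 : dg T v ≠ k := by
      intro h
      have : v ∈ S := h
      rw [hcon] at this
      exact this
    omega
  let b : V → ℕ := fun v => if v ∈ S then k else k - 1
  have hbT : ∀ v, dg T v ≤ b v := by
    intro v
    simp only [b]
    split_ifs with h
    · exact hTd v
    · have h1 := hTd v
      have h2 : dg T v ≠ k := h
      omega
  have hTc : ∀ u v, Cn T ∅ u v := fun u v => (reach_iff T u v).2 (hTtree.connected.preconnected u v)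
  obtain ⟨X, hX1, hX2, hX3⟩ := structure_thm hTΓ hTc hbT
  have hSX : S ⊆ X := by
    intro v hv
    by_contra hvX
    obtain ⟨T', h1, h2, h3, h4⟩ := hX3 v hvX
    have hconn' : T'.Connected := by
      have : T'.Preconnected := fun u v => (reach_iff T' u v).1 (h2 u v)
      exact ⟨this⟩
    have h5 := hTs T' h1 hconn' (fun v => (h3 v).trans (by simp only [b]; split_ifs <;> omega))
    have h6 : {v | dg T' v = k} ⊂ S := by
      refine ⟨?_, ?_⟩
      · intro u hu
        by_contra huS
        have h7 : dg T' u = k := hu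
        have h8 := h3 u
        simp only [b, huS, if_false] at h8
        omega
      · intro hsub
        have h7 : dg T' v = k := hsub hv
        simp only [b, hv, if_true] at h4
        omega
    have h7 := Set.ncard_lt_ncard h6 (Set.toFinite _)
    omega
  have hXne : X.toFinset.Nonempty := by
    obtain ⟨v, hv⟩ := hSne
    exact ⟨v, by rw [Set.mem_toFinset]; exact hSX hv⟩
  refine no_sep d hd hdeg hbd hTtree X.toFinset hXne ?_ ?_
  · intro x hx
    rw [Set.mem_toFinset] at hx
    rw [hX1 x hx]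
    simp only [b]
    split_ifs <;> omega
  · intro u v hu hv huv
    rw [Set.mem_toFinset] at hu hv
    rw [Set.coe_toFinset]
    exact hX2 u v hu hv huv

end Pool.Agent.X250.Ham
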