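import Mathlib
import Pool.Agent.X250.Ham.Count

/-!
# The edge connectivity of vertex transitive graphs

In a connected vertex transitive graph of degree `d` each proper nonempty set of vertices has at
least `d` boundary edges.
-/

namespace Pool.Agent.X250.Ham

open Relation Finset

variable {V : Type*} [Fintype V]

lemma bd_sub (Γ : SimpleGraph V) (S T : Set V) :
    bd Γ (S ∩ T) + bd Γ (S ∪ T) ≤ bd Γ S + bd Γ T := by
  classical
  have h : ∀ S : Set V, bd Γ S =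
      ∑ p : V × V, if p.1 ∈ S ∧ p.2 ∉ S ∧ Γ.Adj p.1 p.2 then 1 else 0 := by
    intro S
    unfold bd
    rw [Set.ncard_eq_toFinset_card', ← card_filter]
    congr 1
    ext p
    simp
  rw [h, h, h, h, ← sum_add_distrib, ← sum_add_distrib]
  refine sum_le_sum fun p _ => ?_
  by_cases hA : Γ.Adj p.1 p.2
  · by_cases h1 : p.1 ∈ S <;> by_cases h2 : p.1 ∈ T <;> by_cases h3 : p.2 ∈ S <;>
      by_cases h4 : p.2 ∈ T <;> simp [hA, h1, h2, h3, h4]
  · simp [hA]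

omit [Fintype V] in
lemma bd_compl (Γ : SimpleGraph V) (S : Set V) : bd Γ Sᶜ = bd Γ S := by
  unfold bd
  refine Set.ncard_congr (fun p _ => (p.2, p.1)) ?_ ?_ ?_
  · rintro ⟨a, c⟩ ⟨h1, h2, h3⟩
    exact ⟨not_not.1 h2, h1, h3.symm⟩
  · rintro ⟨a, c⟩ ⟨a', c'⟩ _ _ h
    obtain ⟨h1, h2⟩ := Prod.mk.inj h
    simp only at h1 h2
    rw [h1, h2]
  · rintro ⟨a, c⟩ ⟨h1, h2, h3⟩
    exact ⟨(c, a), ⟨h2, not_not.2 h1, h3.symm⟩, rfl⟩

omit [Fintype V] in
lemma bd_image (Γ : SimpleGraph V) (φ : Γ ≃g Γ) (S : Set V) : bd Γ (φ '' S) = bd Γ S := by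
  unfold bd
  symm
  refine Set.ncard_congr (fun p _ => (φ p.1, φ p.2)) ?_ ?_ ?_
  · rintro ⟨a, c⟩ ⟨h1, h2, h3⟩
    refine ⟨⟨a, h1, rfl⟩, ?_, φ.map_adj_iff.2 h3⟩
    rintro ⟨c', hc', h⟩
    exact h2 (φ.injective h ▸ hc')
  · rintro ⟨a, c⟩ ⟨a', c'⟩ _ _ h
    obtain ⟨h1, h2⟩ := Prod.mk.inj h
    simp only at h1 h2
    rw [φ.injective h1, φ.injective h2]
  · rintro ⟨a, c⟩ ⟨⟨a', h1, h1'⟩, h2, h3⟩
    simp only at h1' h2 h3
    subst h1'
    refine ⟨(a', φ.symm c), ⟨h1, ?_, ?_⟩, ?_⟩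
    · intro h
      exact h2 ⟨φ.symm c, h, φ.apply_symm_apply c⟩
    · rw [← φ.map_adj_iff, φ.apply_symm_apply]
      exact h3
    · simp only
      rw [φ.apply_symm_apply]

omit [Fintype V] in
lemma dg_iso (Γ : SimpleGraph V) (φ : Γ ≃g Γ) (v : V) : dg Γ (φ v) = dg Γ v := by
  unfold dg
  symm
  refine Set.ncard_congr (fun c _ => φ c) ?_ ?_ ?_
  · intro c hc
    exact φ.map_adj_iff.2 hc
  · intro a c _ _ h
    exact φ.injective h
  · intro c hc
    refine ⟨φ.symm c, ?_, φ.apply_symm_apply c⟩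
    have h1 : Γ.Adj (φ v) (φ (φ.symm c)) := by rw [φ.apply_symm_apply]; exact hc
    exact φ.map_adj_iff.1 h1

lemma arith (s r d : ℕ) (hs : 1 ≤ s) (hr : r + 1 ≤ s) (hrd : r + 1 ≤ d) : d ≤ s * (d - r) := by
  obtain ⟨e, rfl⟩ : ∃ e, d = r + 1 + e := ⟨d - (r + 1), by omega⟩
  obtain ⟨f, rfl⟩ : ∃ f, s = r + 1 + f := ⟨s - (r + 1), by omega⟩
  have h1 : r + 1 + e - r = 1 + e := by omega
  rw [h1]
  nlinarith [Nat.zero_le (r * e), Nat.zero_le (f * e), Nat.zero_le f]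

theorem mader (Γ : SimpleGraph V) (hconn : Γ.Connected)
    (htrans : ∀ u v, ∃ φ : Γ ≃g Γ, φ u = v) (v0 : V) (S : Set V) (hS : S.Nonempty)
    (hSu : S ≠ Set.univ) : dg Γ v0 ≤ bd Γ S := by
  classical
  -- minimal boundary
  let P : ℕ → Prop := fun n => ∃ S : Set V, S.Nonempty ∧ S ≠ Set.univ ∧ bd Γ S = n
  have hP : ∃ n, P n := ⟨_, S, hS, hSu, rfl⟩
  set lam := Nat.find hP with hlam
  have hle : lam ≤ bd Γ S := Nat.find_min' hP ⟨S, hS, hSu, rfl⟩
  have hmin : ∀ S : Set V, S.Nonempty → S ≠ Set.univ → lam ≤ bd Γ S := fun S h1 h2 =>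
    Nat.find_min' hP ⟨S, h1, h2, rfl⟩
  refine le_trans ?_ hle
  -- an atom
  let Q : ℕ → Prop := fun n => ∃ S : Set V, S.Nonempty ∧ S ≠ Set.univ ∧ bd Γ S = lam ∧ S.ncard = n
  have hQ : ∃ n, Q n := by
    obtain ⟨S, h1, h2, h3⟩ := Nat.find_spec hP
    exact ⟨_, S, h1, h2, h3, rfl⟩
  obtain ⟨A, hA1, hA2, hA3, hA4⟩ := Nat.find_spec hQ
  have hAmin : ∀ S : Set V, S.Nonempty → S ≠ Set.univ → bd Γ S = lam → A.ncard ≤ S.ncard := by
    intro S h1 h2 h3
    rw [hA4]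
    exact Nat.find_min' hQ ⟨S, h1, h2, h3, rfl⟩
  have hAc : A.ncard ≤ Aᶜ.ncard := by
    refine hAmin _ ?_ ?_ ?_
    · rw [Set.nonempty_compl]
      exact hA2
    · intro h
      exact hA1.ne_empty (by rw [← compl_compl A, h, Set.compl_univ])
    · rw [bd_compl]
      exact hA3
  have hcard : A.ncard + Aᶜ.ncard = Fintype.card V := by
    rw [Set.ncard_add_ncard_compl, Nat.card_eq_fintype_card]
  -- translates of the atom
  have hblock : ∀ φ : Γ ≃g Γ, (A ∩ φ '' A).Nonempty → φ '' A = A := by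
    intro φ hne
    have h1 : (φ '' A).ncard = A.ncard := Set.ncard_image_of_injective _ φ.injective
    have h2 := bd_sub Γ A (φ '' A)
    rw [bd_image, hA3] at h2
    have h3 : A ∩ φ '' A ≠ Set.univ := by
      intro h
      apply hA2
      rw [← Set.univ_subset_iff, ← h]
      exact Set.inter_subset_left
    have h4 : A ∪ φ '' A ≠ Set.univ := by
      intro h
      have h5 := Set.ncard_union_add_ncard_inter A (φ '' A)
      rw [h, Set.ncard_univ, Nat.card_eq_fintype_card, h1] at h5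
      have h6 : 0 < (A ∩ φ '' A).ncard := (Set.ncard_pos (Set.toFinite _)).2 hne
      omega
    have h5 := hmin _ hne h3
    have h6 := hmin _ (hA1.mono Set.subset_union_left) h4
    have h7 : bd Γ (A ∩ φ '' A) = lam := by omega
    have h8 := hAmin _ hne h3 h7
    have h9 : A ∩ φ '' A = A :=
      Set.eq_of_subset_of_ncard_le Set.inter_subset_left h8 (Set.toFinite _)
    have h10 : A ⊆ φ '' A := by
      intro a ha
      rw [← h9] at ha
      exact ha.2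
    exact (Set.eq_of_subset_of_ncard_le h10 h1.le (Set.toFinite _)).symm
  -- inner degrees
  let r : V → ℕ := fun u => {c | c ∈ A ∧ Γ.Adj u c}.ncard
  obtain ⟨a0, ha0⟩ := hA1
  have hr : ∀ u ∈ A, r u = r a0 := by
    intro u hu
    obtain ⟨φ, hφ⟩ := htrans a0 u
    have h1 : φ '' A = A := hblock φ ⟨u, hu, a0, ha0, hφ⟩
    symm
    refine Set.ncard_congr (fun c _ => φ c) ?_ ?_ ?_
    · rintro c ⟨h2, h3⟩
      refine ⟨h1 ▸ ⟨c, h2, rfl⟩, ?_⟩
      rw [← hφ]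
      exact φ.map_adj_iff.2 h3
    · intro a c _ _ h
      exact φ.injective h
    · rintro c ⟨h2, h3⟩
      rw [← h1] at h2
      obtain ⟨c', h4, rfl⟩ := h2
      refine ⟨c', ⟨h4, ?_⟩, rfl⟩
      rw [← hφ] at h3
      exact φ.map_adj_iff.1 h3
  have hdg : ∀ u, dg Γ u = dg Γ v0 := by
    intro u
    obtain ⟨φ, hφ⟩ := htrans v0 u
    rw [← hφ, dg_iso]
  -- outer degrees
  have hout : ∀ u ∈ A, {c | c ∉ A ∧ Γ.Adj u c}.ncard = dg Γ v0 - r a0 := by
    intro u hu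
    have h1 : {c | c ∈ A ∧ Γ.Adj u c}.ncard + {c | c ∉ A ∧ Γ.Adj u c}.ncard = dg Γ u := by
      unfold dg
      rw [← Set.ncard_union_eq]
      · congr 1
        ext c
        simp only [Set.mem_union, Set.mem_ofPred_eq, SimpleGraph.mem_neighborSet]
        tauto
      · rw [Set.disjoint_left]
        rintro c ⟨h1, _⟩ ⟨h2, _⟩
        exact h2 h1
    have h2 := hr u hu
    have h3 := hdg u
    simp only [r] at h2
    simp only [r]
    omega
  have hbdA : bd Γ A = A.ncard * (dg Γ v0 - r a0) := by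
    unfold bd
    rw [Set.ncard_eq_toFinset_card', Set.ncard_eq_toFinset_card' A]
    have h1 : ∀ p ∈ {p : V × V | p.1 ∈ A ∧ p.2 ∉ A ∧ Γ.Adj p.1 p.2}.toFinset, p.1 ∈ A.toFinset := by
      intro p hp
      rw [Set.mem_toFinset] at hp ⊢
      exact hp.1
    rw [card_eq_sum_card_fiberwise h1, ← smul_eq_mul, ← sum_const]
    refine sum_congr rfl fun u hu => ?_
    rw [Set.mem_toFinset] at hu
    rw [← hout u hu, Set.ncard_eq_toFinset_card']
    symm
    refine card_bij (fun c _ => (u, c)) ?_ ?_ ?_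
    · intro c hc
      rw [Set.mem_toFinset] at hc
      rw [mem_filter, Set.mem_toFinset]
      exact ⟨⟨hu, hc.1, hc.2⟩, rfl⟩
    · intro c _ c' _ h
      exact (Prod.mk.inj h).2
    · rintro ⟨a, c⟩ h
      rw [mem_filter, Set.mem_toFinset] at h
      obtain ⟨⟨h1, h2, h3⟩, h4⟩ := h
      simp only at h1 h2 h3 h4
      subst h4
      exact ⟨c, by rw [Set.mem_toFinset]; exact ⟨h2, h3⟩, rfl⟩
  have hpos : 0 < bd Γ A := by
    unfold bd
    rw [Set.ncard_pos (Set.toFinite _)]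
    obtain ⟨c0, hc0⟩ := (Set.nonempty_compl.2 hA2)
    have h1 : ReflTransGen (St Γ ∅) c0 a0 := (reach_iff Γ c0 a0).2 (hconn.preconnected c0 a0)
    obtain ⟨w, z, hw, hz, hwz, -⟩ := first_entrance A h1 hc0 ha0
    exact ⟨(z, w), hz, hw, hwz.1.symm⟩
  have hrA : r a0 + 1 ≤ A.ncard := by
    have h1 : {c | c ∈ A ∧ Γ.Adj a0 c} ⊂ A := by
      refine ⟨fun c hc => hc.1, fun h => ?_⟩
      exact Γ.irrefl (h ha0).2
    exact Set.ncard_lt_ncard h1 (Set.toFinite _)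
  rw [← hA3, hbdA]
  rw [hbdA] at hpos
  have h1 : 0 < dg Γ v0 - r a0 := Nat.pos_of_mul_pos_left hpos
  exact arith _ _ _ (by omega) hrA (by omega)

/-- **Vertex transitive graphs have connected spanning subgraphs of maximal degree three.** -/
theorem transitive_three [DecidableEq V] (Γ : SimpleGraph V) (hconn : Γ.Connected)
    (htrans : ∀ u v, ∃ φ : Γ ≃g Γ, φ u = v) : ∃ T ≤ Γ, T.Connected ∧ ∀ v, dg T v ≤ 3 := by
  obtain ⟨v0⟩ := hconn.nonempty
  have : Nonempty V := ⟨v0⟩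
  rcases Nat.eq_zero_or_pos (dg Γ v0) with h | h
  · refine ⟨Γ, le_rfl, hconn, fun v => ?_⟩
    obtain ⟨φ, hφ⟩ := htrans v0 v
    rw [← hφ, dg_iso, h]
    omega
  · refine exists_three Γ (dg Γ v0) h (fun v => ?_) hconn
      (fun S h1 h2 => mader Γ hconn htrans v0 S h1 h2)
    obtain ⟨φ, hφ⟩ := htrans v0 v
    rw [← hφ, dg_iso]

end Pool.Agent.X250.Ham
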