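import Mathlib
import Pool.Agent.X250.Ham.Mader

/-!
# Merging the cycles of the cosets along a connected graph of small degree
-/

namespace Pool.Agent.X250.Ham

open Equiv Equiv.Perm

section Merge

variable {X : Type*}

lemma pai (σ : Perm X) (x : X) : σ (σ⁻¹ x) = x := σ.apply_symm_apply x

lemma pia (σ : Perm X) (x : X) : σ⁻¹ (σ x) = x := σ.symm_apply_apply x

lemma sameCycle_of_step {σ τ : Perm X} (h : ∀ z, τ.SameCycle z (σ z)) {u v : X}
    (huv : σ.SameCycle u v) : τ.SameCycle u v := by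
  obtain ⟨i, rfl⟩ := huv
  induction i using Int.induction_on with
  | zero => exact SameCycle.refl _ _
  | succ i ih =>
    have h1 := h ((σ ^ (i : ℤ)) u)
    have h2 : σ ((σ ^ (i : ℤ)) u) = (σ ^ ((i : ℤ) + 1)) u := by
      rw [add_comm, zpow_add, zpow_one]; rfl
    rw [h2] at h1
    exact ih.trans h1
  | pred i ih =>
    have h1 := h ((σ ^ (-(i : ℤ) - 1)) u)
    have h2 : σ ((σ ^ (-(i : ℤ) - 1)) u) = (σ ^ (-(i : ℤ))) u := by
      have : (-(i : ℤ)) = 1 + (-(i : ℤ) - 1) := by ring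
      conv_rhs => rw [this, zpow_add, zpow_one]
      rfl
    rw [h2] at h1
    exact ih.trans h1.symm

variable [DecidableEq X]

/-- Multiplication by a transposition merges two cycles. -/
theorem merge [Finite X] (σ : Perm X) (x y : X) (h : ¬ σ.SameCycle x y) :
    (∀ u v, σ.SameCycle u v → (σ * swap x y).SameCycle u v) ∧ (σ * swap x y).SameCycle x y := by
  set τ : Perm X := σ * swap x y with hτ
  have hx : τ x = σ y := by simp [hτ]
  have hy : τ y = σ x := by simp [hτ]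
  have hz : ∀ z, z ≠ x → z ≠ y → τ z = σ z := by
    intro z h1 h2
    simp [hτ, swap_apply_of_ne_of_ne h1 h2]
  have key : ∀ k : ℕ, (∀ j, 1 ≤ j → j ≤ k → (σ ^ j) x ≠ x) → τ.SameCycle y ((σ ^ (k + 1)) x) := by
    intro k
    induction k with
    | zero =>
      intro _
      rw [zero_add, pow_one, ← hy]
      exact (sameCycle_apply_right).2 (SameCycle.refl _ _)
    | succ k ih =>
      intro hj
      have h1 := ih (fun j h1 h2 => hj j h1 (by omega))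
      have h2 : (σ ^ (k + 1)) x ≠ x := hj (k + 1) (by omega) le_rfl
      have h3 : (σ ^ (k + 1)) x ≠ y := fun h4 => h ⟨((k + 1 : ℕ) : ℤ), by rw [zpow_natCast]; exact h4⟩
      have h4 : τ ((σ ^ (k + 1)) x) = (σ ^ (k + 1 + 1)) x := by
        rw [hz _ h2 h3, pow_succ' σ (k + 1)]
        rfl
      rw [← h4]
      exact (sameCycle_apply_right).2 h1
  have hxy : τ.SameCycle x y := by
    have hex : ∃ m : ℕ, 0 < m ∧ (σ ^ m) x = x :=
      ⟨orderOf σ, orderOf_pos σ, by rw [pow_orderOf_eq_one]; rfl⟩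
    classical
    have hm := Nat.find_spec hex
    have hmin : ∀ j, j < Nat.find hex → ¬ (0 < j ∧ (σ ^ j) x = x) := fun j hj => Nat.find_min hex hj
    set m := Nat.find hex with hmdef
    have := key (m - 1) (fun j h1 h2 h3 => hmin j (by omega) ⟨by omega, h3⟩)
    rw [Nat.sub_add_cancel hm.1, hm.2] at this
    exact this.symm
  refine ⟨fun u v huv => sameCycle_of_step (fun z => ?_) huv, hxy⟩
  by_cases h1 : z = x
  · subst h1
    rw [← hy]
    exact (sameCycle_apply_right).2 hxy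
  · by_cases h2 : z = y
    · subst h2
      rw [← hx]
      exact (sameCycle_apply_right).2 hxy.symm
    · rw [← hz z h1 h2]
      exact (sameCycle_apply_right).2 (SameCycle.refl _ _)

omit [DecidableEq X] in
/-- Two permutations which agree on an invariant set have the same cycles there. -/
lemma sameCycle_congr {σ τ : Perm X} {S : Set X} (h1 : ∀ x ∈ S, σ x = τ x)
    (h2 : ∀ x, τ x ∈ S ↔ x ∈ S) (h3 : ∀ x, σ x ∈ S ↔ x ∈ S) {x y : X} (hx : x ∈ S)
    (h : σ.SameCycle x y) : τ.SameCycle x y := by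
  obtain ⟨i, rfl⟩ := h
  have key : ∀ i : ℤ, (τ ^ i) x = (σ ^ i) x ∧ (σ ^ i) x ∈ S := by
    intro i
    induction i using Int.induction_on with
    | zero => exact ⟨rfl, hx⟩
    | succ i ih =>
      have e1 : (τ ^ ((i : ℤ) + 1)) x = τ ((τ ^ (i : ℤ)) x) := by
        rw [add_comm, zpow_add, zpow_one]; rfl
      have e2 : (σ ^ ((i : ℤ) + 1)) x = σ ((σ ^ (i : ℤ)) x) := by
        rw [add_comm, zpow_add, zpow_one]; rfl
      rw [e1, e2, ih.1, h1 _ ih.2]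
      exact ⟨rfl, (h2 _).2 ih.2⟩
    | pred i ih =>
      have e1 : τ ((τ ^ (-(i : ℤ) - 1)) x) = (τ ^ (-(i : ℤ))) x := by
        have : (-(i : ℤ)) = 1 + (-(i : ℤ) - 1) := by ring
        conv_rhs => rw [this, zpow_add, zpow_one]
        rfl
      have e2 : σ ((σ ^ (-(i : ℤ) - 1)) x) = (σ ^ (-(i : ℤ))) x := by
        have : (-(i : ℤ)) = 1 + (-(i : ℤ) - 1) := by ring
        conv_rhs => rw [this, zpow_add, zpow_one]
        rfl
      have h4 : (σ ^ (-(i : ℤ) - 1)) x ∈ S := by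
        rw [← h3, e2]
        exact ih.2
      refine ⟨?_, h4⟩
      apply τ.injective
      rw [e1, ← h1 _ h4, e2, ih.1]
  exact ⟨i, (key i).1⟩

end Merge

section Coset

variable {G : Type*} [Group G]

/-- A Hamiltonian cycle of the subgroup `H`. -/
structure Good (A : Set G) (H : Subgroup G) (c : Perm G) : Prop where
  out : ∀ h, h ∉ H → c h = h
  lab : ∀ h ∈ H, h⁻¹ * c h ∈ A
  cyc : ∀ h ∈ H, c.SameCycle 1 h

variable {A : Set G} {H : Subgroup G}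

lemma Good.mem {c : Perm G} (hc : Good A H c) (h : G) : c h ∈ H ↔ h ∈ H := by
  constructor
  · intro h1
    by_contra h2
    rw [hc.out h h2] at h1
    exact h2 h1
  · intro h1
    by_contra h2
    have h3 := hc.out _ h2
    have h4 := c.injective h3
    rw [h4] at h2
    exact h2 h1

lemma Good.inv {c : Perm G} (hA : ∀ x ∈ A, x⁻¹ ∈ A) (hc : Good A H c) : Good A H c⁻¹ := by
  have hm : ∀ h, c⁻¹ h ∈ H ↔ h ∈ H := by
    intro h
    rw [← hc.mem (c⁻¹ h), pai]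
  refine ⟨?_, ?_, ?_⟩
  · intro h hh
    rw [Perm.inv_eq_iff_eq]
    exact (hc.out h hh).symm
  · intro h hh
    have h1 := hA _ (hc.lab (c⁻¹ h) ((hm h).2 hh))
    rw [pai] at h1
    rwa [mul_inv_rev, inv_inv] at h1
  · intro h hh
    exact (sameCycle_inv).2 (hc.cyc h hh)

/-- Left translate of a permutation. -/
def tr (g : G) (c : Perm G) : Perm G := Equiv.mulLeft g * c * (Equiv.mulLeft g)⁻¹

lemma tr_apply (g : G) (c : Perm G) (x : G) : tr g c x = g * c (g⁻¹ * x) := rfl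

lemma tr_sameCycle (g : G) (c : Perm G) (x y : G) (h : c.SameCycle (g⁻¹ * x) (g⁻¹ * y)) :
    (tr g c).SameCycle x y := by
  have h1 : (tr g c) = Equiv.mulLeft g * c * (Equiv.mulLeft g)⁻¹ := rfl
  rw [h1, sameCycle_conj]
  exact h

/-- A translate of a Hamiltonian cycle of `H` to the coset `P`. -/
def Cyc (A : Set G) (H : Subgroup G) (P : G ⧸ H) (κ : Perm G) : Prop :=
  ∃ g : G, (g : G ⧸ H) = P ∧ ∃ c, Good A H c ∧ κ = tr g c

lemma mk_eq_iff {g x : G} : (x : G ⧸ H) = (g : G ⧸ H) ↔ g⁻¹ * x ∈ H := by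
  rw [eq_comm, QuotientGroup.eq]

variable {P : G ⧸ H} {κ : Perm G}

lemma Cyc.out (h : Cyc A H P κ) {x : G} (hx : (x : G ⧸ H) ≠ P) : κ x = x := by
  obtain ⟨g, rfl, c, hc, rfl⟩ := h
  rw [tr_apply, hc.out _ (fun h => hx (mk_eq_iff.2 h)), mul_inv_cancel_left]

lemma Cyc.mem (h : Cyc A H P κ) (x : G) : (κ x : G ⧸ H) = P ↔ (x : G ⧸ H) = P := by
  obtain ⟨g, rfl, c, hc, rfl⟩ := h
  rw [mk_eq_iff, mk_eq_iff, tr_apply, inv_mul_cancel_left, hc.mem]

lemma Cyc.lab (h : Cyc A H P κ) {x : G} (hx : (x : G ⧸ H) = P) : x⁻¹ * κ x ∈ A := by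
  obtain ⟨g, rfl, c, hc, rfl⟩ := h
  have h1 := hc.lab _ (mk_eq_iff.1 hx)
  rwa [mul_inv_rev, inv_inv, mul_assoc] at h1

lemma Cyc.cyc (h : Cyc A H P κ) {x y : G} (hx : (x : G ⧸ H) = P) (hy : (y : G ⧸ H) = P) :
    κ.SameCycle x y := by
  obtain ⟨g, rfl, c, hc, rfl⟩ := h
  exact tr_sameCycle _ _ _ _ ((hc.cyc _ (mk_eq_iff.1 hx)).symm.trans (hc.cyc _ (mk_eq_iff.1 hy)))

/-- The coset graph. -/
def cosetGraph (A : Set G) (H : Subgroup G) (hA : ∀ x ∈ A, x⁻¹ ∈ A) : SimpleGraph (G ⧸ H) where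
  Adj P Q := P ≠ Q ∧ ∃ g : G, ∃ a ∈ A, (g : G ⧸ H) = P ∧ ((g * a : G) : G ⧸ H) = Q
  symm := ⟨fun P Q h => by
    obtain ⟨h1, g, a, ha, h2, h3⟩ := h
    exact ⟨h1.symm, g * a, a⁻¹, hA a ha, h3, by rw [mul_inv_cancel_right]; exact h2⟩⟩
  loopless := ⟨fun P h => h.1 rfl⟩

lemma Cyc.transfer (hA : ∀ x ∈ A, x⁻¹ ∈ A) (hH : ∀ h ∈ H, ∀ a ∈ A, h⁻¹ * a * h ∈ A)
    (h : Cyc A H P κ) {Q : G ⧸ H} (hPQ : (cosetGraph A H hA).Adj P Q) :
    ∃ (b : G) (κ' : Perm G), Cyc A H Q κ' ∧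
      (∀ x : G, (x : G ⧸ H) = P → ((b * x : G) : G ⧸ H) = Q ∧ x⁻¹ * (b * x) ∈ A) ∧
      ∀ x : G, (x : G ⧸ H) = P → κ' (b * κ x) = b * x := by
  obtain ⟨g, rfl, c, hc, rfl⟩ := h
  obtain ⟨_, g1, a, ha, h2, rfl⟩ := hPQ
  obtain ⟨h, hh, rfl⟩ : ∃ h ∈ H, g1 = g * h := ⟨g⁻¹ * g1, mk_eq_iff.1 h2, by rw [mul_inv_cancel_left]⟩
  have ha' : h * a * h⁻¹ ∈ A := by
    have := hH h⁻¹ (H.inv_mem hh) a ha
    rwa [inv_inv] at this
  obtain ⟨a', ha'', haa⟩ : ∃ a' ∈ A, a' = h * a * h⁻¹ := ⟨_, ha', rfl⟩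
  have hQ : ((g * a' : G) : G ⧸ H) = ((g * h * a : G) : G ⧸ H) := by
    rw [mk_eq_iff, haa]
    have : (g * h * a)⁻¹ * (g * (h * a * h⁻¹)) = h⁻¹ := by group
    rw [this]
    exact H.inv_mem hh
  refine ⟨g * a' * g⁻¹, tr (g * a') c⁻¹, ⟨g * a', hQ, c⁻¹, hc.inv hA, rfl⟩, ?_, ?_⟩
  · intro x hx
    have hk := mk_eq_iff.1 hx
    constructor
    · rw [← hQ, mk_eq_iff]
      have : (g * a')⁻¹ * (g * a' * g⁻¹ * x) = g⁻¹ * x := by group
      rw [this]
      exact hk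
    · have : x⁻¹ * (g * a' * g⁻¹ * x) = (g⁻¹ * x)⁻¹ * a' * (g⁻¹ * x) := by group
      rw [this]
      exact hH _ hk _ ha''
  · intro x hx
    rw [tr_apply, tr_apply]
    have h1 : (g * a')⁻¹ * (g * a' * g⁻¹ * (g * c (g⁻¹ * x))) = c (g⁻¹ * x) := by group
    rw [h1, pia]
    group

end Coset

end Pool.Agent.X250.Ham
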