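import Mathlib
import Pool.Agent.X250.Ham.Merge

/-!
# Lifting Hamiltonian cycles from a subgroup which normalises the generating set
-/

namespace Pool.Agent.X250.Ham

open Equiv Equiv.Perm

variable {G : Type*} [Group G] [Finite G] {A : Set G} {H : Subgroup G}

omit [Finite G] in
lemma ncard_coset (P : G ⧸ H) : {x : G | (x : G ⧸ H) = P}.ncard = Nat.card H := by
  obtain ⟨g, rfl⟩ := QuotientGroup.mk_surjective P
  have h1 : {x : G | (x : G ⧸ H) = (g : G ⧸ H)} = (fun h => g * h) '' (H : Set G) := by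
    ext x
    simp only [Set.mem_ofPred_eq, Set.mem_image, SetLike.mem_coe]
    rw [mk_eq_iff]
    constructor
    · intro h
      exact ⟨_, h, mul_inv_cancel_left _ _⟩
    · rintro ⟨h, hh, rfl⟩
      rwa [inv_mul_cancel_left]
  rw [h1, Set.ncard_image_of_injective _ (mul_right_injective g)]
  rfl

/-- The merged cycle of the cosets in `D`. -/
def State (A : Set G) (H : Subgroup G) (T : SimpleGraph (G ⧸ H)) (D : Set (G ⧸ H)) : Prop :=
  ∃ (σ : Perm G) (κ : G ⧸ H → Perm G), (∀ x : G, (x : G ⧸ H) ∉ D → σ x = x) ∧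
    (∀ x : G, (x : G ⧸ H) ∈ D → x⁻¹ * σ x ∈ A) ∧
    (∀ x y : G, (x : G ⧸ H) ∈ D → (y : G ⧸ H) ∈ D → σ.SameCycle x y) ∧
    ∀ P ∈ D, Cyc A H P (κ P) ∧ Nat.card H ≤
      {x : G | (x : G ⧸ H) = P ∧ σ x = κ P x}.ncard + {Q | Q ∈ D ∧ T.Adj P Q}.ncard

lemma state_init {c : Perm G} (hc : Good A H c) (T : SimpleGraph (G ⧸ H)) :
    State A H T {((1 : G) : G ⧸ H)} := by
  have h0 : Cyc A H ((1 : G) : G ⧸ H) (tr 1 c) := ⟨1, rfl, c, hc, rfl⟩
  refine ⟨tr 1 c, fun _ => tr 1 c, ?_, ?_, ?_, ?_⟩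
  · intro x hx
    exact h0.out hx
  · intro x hx
    exact h0.lab hx
  · intro x y hx hy
    exact h0.cyc hx hy
  · intro P hP
    rw [Set.mem_singleton_iff] at hP
    subst hP
    refine ⟨h0, ?_⟩
    have h1 : {x : G | (x : G ⧸ H) = ((1 : G) : G ⧸ H) ∧ tr 1 c x = tr 1 c x} =
        {x : G | (x : G ⧸ H) = ((1 : G) : G ⧸ H)} := by
      ext x
      simp
    rw [h1, ncard_coset]
    omega

lemma state_step (hA : ∀ x ∈ A, x⁻¹ ∈ A) (hH : ∀ h ∈ H, ∀ a ∈ A, h⁻¹ * a * h ∈ A)
    {T : SimpleGraph (G ⧸ H)} (hT : T ≤ cosetGraph A H hA) (hdeg : ∀ P, dg T P ≤ Nat.card H)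
    {D : Set (G ⧸ H)} (hD : State A H T D) {P Q : G ⧸ H} (hP : P ∈ D) (hQ : Q ∉ D)
    (hPQ : T.Adj P Q) : State A H T (insert Q D) := by
  classical
  obtain ⟨σ, κ, h1, h2, h3, h4⟩ := hD
  obtain ⟨hcP, hslot⟩ := h4 P hP
  -- a free slot
  have hfree : {x : G | (x : G ⧸ H) = P ∧ σ x = κ P x}.Nonempty := by
    by_contra hcon
    rw [Set.not_nonempty_iff_eq_empty] at hcon
    rw [hcon, Set.ncard_empty, zero_add] at hslot
    have h5 : {Q | Q ∈ D ∧ T.Adj P Q} ⊂ T.neighborSet P := by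
      refine ⟨fun R hR => hR.2, fun h => hQ (h (show Q ∈ T.neighborSet P from hPQ)).1⟩
    have h6 := Set.ncard_lt_ncard h5 (Set.toFinite _)
    have h7 := hdeg P
    unfold dg at h7
    omega
  obtain ⟨x, hxP, hσx⟩ := hfree
  obtain ⟨b, κ', hκ', hb, hb'⟩ := hcP.transfer hA hH (hT hPQ)
  have hσmem : ∀ z : G, (σ z : G ⧸ H) ∈ D ↔ (z : G ⧸ H) ∈ D := by
    intro z
    constructor
    · intro hz
      by_contra hz'
      rw [h1 z hz'] at hz
      exact hz' hz
    · intro hz
      by_contra hz'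
      have h5 := h1 _ hz'
      have h6 := σ.injective h5
      rw [h6] at hz'
      exact hz' hz
  set y := κ P x with hy
  have hyP : (y : G ⧸ H) = P := (hcP.mem x).2 hxP
  have hbx := hb x hxP
  have hby := hb y hyP
  have hbyQ : ((b * y : G) : G ⧸ H) = Q := hby.1
  have hxQ : (x : G ⧸ H) ≠ Q := fun h => hQ (by rw [← h, hxP]; exact hP)
  -- the union of the two permutations
  set τ : Perm G := σ * κ' with hτ
  have hτD : ∀ z : G, (z : G ⧸ H) ∈ D → τ z = σ z := by
    intro z hz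
    have : (z : G ⧸ H) ≠ Q := fun h => hQ (h ▸ hz)
    change σ (κ' z) = σ z
    rw [hκ'.out this]
  have hτQ : ∀ z : G, (z : G ⧸ H) = Q → τ z = κ' z := by
    intro z hz
    change σ (κ' z) = κ' z
    refine h1 _ ?_
    rw [(hκ'.mem z).2 hz]
    exact hQ
  have hτo : ∀ z : G, (z : G ⧸ H) ∉ D → (z : G ⧸ H) ≠ Q → τ z = z := by
    intro z hz hz'
    change σ (κ' z) = z
    rw [hκ'.out hz', h1 z hz]
  have hτmem : ∀ z : G, (τ z : G ⧸ H) ∈ D ↔ (z : G ⧸ H) ∈ D := by
    intro z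
    by_cases hz : (z : G ⧸ H) ∈ D
    · rw [hτD z hz]
      exact hσmem z
    · by_cases hz' : (z : G ⧸ H) = Q
      · rw [hτQ z hz', (hκ'.mem z).2 hz', hz']
      · rw [hτo z hz hz']
  have hτmemQ : ∀ z : G, (τ z : G ⧸ H) = Q ↔ (z : G ⧸ H) = Q := by
    intro z
    by_cases hz' : (z : G ⧸ H) = Q
    · rw [hτQ z hz']
      exact hκ'.mem z
    · by_cases hz : (z : G ⧸ H) ∈ D
      · have h5 := (hτmem z).2 hz
        constructor
        · intro h
          rw [h] at h5
          exact absurd h5 hQ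
        · exact fun h => absurd h hz'
      · rw [hτo z hz hz']
  have hcD : ∀ z w : G, (z : G ⧸ H) ∈ D → (w : G ⧸ H) ∈ D → τ.SameCycle z w := by
    intro z w hz hw
    exact sameCycle_congr (S := {z : G | (z : G ⧸ H) ∈ D}) (fun z hz => (hτD z hz).symm) hτmem
      hσmem hz (h3 z w hz hw)
  have hcQ : ∀ z w : G, (z : G ⧸ H) = Q → (w : G ⧸ H) = Q → τ.SameCycle z w := by
    intro z w hz hw
    exact sameCycle_congr (S := {z : G | (z : G ⧸ H) = Q}) (fun z hz => (hτQ z hz).symm) hτmemQ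
      (fun z => hκ'.mem z) hz (hκ'.cyc hz hw)
  have hns : ¬ τ.SameCycle x (b * y) := by
    rintro ⟨i, hi⟩
    have key : ∀ i : ℤ, (((τ ^ i) x : G) : G ⧸ H) ∈ D := by
      intro i
      induction i using Int.induction_on with
      | zero => rw [zpow_zero, Perm.one_apply, hxP]; exact hP
      | succ i ih =>
        rw [add_comm, zpow_add, zpow_one, Perm.mul_apply, hτmem]
        exact ih
      | pred i ih =>
        rw [← hτmem]
        have e2 : τ ((τ ^ (-(i : ℤ) - 1)) x) = (τ ^ (-(i : ℤ))) x := by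
          have : (-(i : ℤ)) = 1 + (-(i : ℤ) - 1) := by ring
          conv_rhs => rw [this, zpow_add, zpow_one]
          rfl
        rw [e2]
        exact ih
    have h5 := key i
    rw [hi, hbyQ] at h5
    exact hQ h5
  obtain ⟨m1, m2⟩ := merge τ x (b * y) hns
  set ρ : Perm G := τ * swap x (b * y) with hρ
  have hρx : ρ x = b * x := by
    change τ (swap x (b * y) x) = b * x
    rw [swap_apply_left, hτQ _ hbyQ]
    exact hb' x hxP
  have hρy : ρ (b * y) = y := by
    change τ (swap x (b * y) (b * y)) = y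
    rw [swap_apply_right, hτD x (hxP ▸ hP), hσx]
  have hρz : ∀ z, z ≠ x → z ≠ b * y → ρ z = τ z := by
    intro z hz hz'
    change τ (swap x (b * y) z) = τ z
    rw [swap_apply_of_ne_of_ne hz hz']
  refine ⟨ρ, fun R => if R = Q then κ' else κ R, ?_, ?_, ?_, ?_⟩
  · intro z hz
    rw [Set.mem_insert_iff, not_or] at hz
    have hzx : z ≠ x := fun h => hz.2 (by rw [h, hxP]; exact hP)
    have hzy : z ≠ b * y := fun h => hz.1 (by rw [h, hbyQ])
    rw [hρz z hzx hzy, hτo z hz.2 hz.1]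
  · intro z hz
    by_cases hzx : z = x
    · rw [hzx, hρx]
      exact hbx.2
    · by_cases hzy : z = b * y
      · rw [hzy, hρy]
        have h5 := hA _ hby.2
        rwa [mul_inv_rev, inv_inv] at h5
      · rw [hρz z hzx hzy]
        rcases hz with hz | hz
        · rw [hτQ z hz]
          exact hκ'.lab hz
        · rw [hτD z hz]
          exact h2 z hz
  · have key : ∀ z : G, (z : G ⧸ H) ∈ insert Q D → ρ.SameCycle x z := by
      intro z hz
      rcases hz with hz | hz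
      · exact m2.trans (m1 _ _ (hcQ _ _ hbyQ hz))
      · exact m1 _ _ (hcD _ _ (hxP ▸ hP) hz)
    intro z w hz hw
    exact (key z hz).symm.trans (key w hw)
  · intro R hR
    by_cases hRQ : R = Q
    · subst hRQ
      simp only [if_true]
      refine ⟨hκ', ?_⟩
      have h5 : Nat.card H ≤ {z : G | (z : G ⧸ H) = R ∧ ρ z = κ' z}.ncard + 1 := by
        rw [← ncard_coset R]
        have h6 : {z : G | (z : G ⧸ H) = R} ⊆
            insert (b * y) {z : G | (z : G ⧸ H) = R ∧ ρ z = κ' z} := by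
          intro z hz
          by_cases hzy : z = b * y
          · exact Or.inl hzy
          · have hz' : (z : G ⧸ H) = R := hz
            have hzx : z ≠ x := fun h => hQ (by rw [← hz', h, hxP]; exact hP)
            exact Or.inr ⟨hz, by rw [hρz z hzx hzy, hτQ z hz]⟩
        exact (Set.ncard_le_ncard h6 (Set.toFinite _)).trans (Set.ncard_insert_le _ _)
      have h7 : 0 < {Q | Q ∈ insert R D ∧ T.Adj R Q}.ncard := by
        rw [Set.ncard_pos (Set.toFinite _)]
        exact ⟨P, Or.inr hP, hPQ.symm⟩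
      omega
    · simp only [hRQ, if_false]
      have hRD : R ∈ D := by
        rcases hR with h | h
        · exact absurd h hRQ
        · exact h
      obtain ⟨h5, h6⟩ := h4 R hRD
      refine ⟨h5, ?_⟩
      by_cases hRP : R = P
      · subst hRP
        have h7 : {z : G | (z : G ⧸ H) = R ∧ σ z = κ R z}.ncard ≤
            {z : G | (z : G ⧸ H) = R ∧ ρ z = κ R z}.ncard + 1 := by
          have h8 : {z : G | (z : G ⧸ H) = R ∧ σ z = κ R z} ⊆
              insert x {z : G | (z : G ⧸ H) = R ∧ ρ z = κ R z} := by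
            rintro z ⟨hz, hz'⟩
            by_cases hzx : z = x
            · exact Or.inl hzx
            · have hzy : z ≠ b * y := fun h => hRQ (by rw [← hz, h, hbyQ])
              refine Or.inr ⟨hz, ?_⟩
              rw [hρz z hzx hzy, hτD z (hz ▸ hRD)]
              exact hz'
          exact (Set.ncard_le_ncard h8 (Set.toFinite _)).trans (Set.ncard_insert_le _ _)
        have h9 : {S | S ∈ D ∧ T.Adj R S}.ncard + 1 ≤ {S | S ∈ insert Q D ∧ T.Adj R S}.ncard := by
          have h10 : {S | S ∈ D ∧ T.Adj R S} ⊂ {S | S ∈ insert Q D ∧ T.Adj R S} := by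
            refine ⟨fun S hS => ⟨Or.inr hS.1, hS.2⟩, fun h => hQ ?_⟩
            exact (h (show Q ∈ {S | S ∈ insert Q D ∧ T.Adj R S} from ⟨Or.inl rfl, hPQ⟩)).1
          exact Set.ncard_lt_ncard h10 (Set.toFinite _)
        omega
      · have h7 : {z : G | (z : G ⧸ H) = R ∧ σ z = κ R z}.ncard ≤
            {z : G | (z : G ⧸ H) = R ∧ ρ z = κ R z}.ncard := by
          refine Set.ncard_le_ncard ?_ (Set.toFinite _)
          rintro z ⟨hz, hz'⟩
          refine ⟨hz, ?_⟩
          have hzx : z ≠ x := fun h => hRP (by rw [← hz, h, hxP])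
          have hzy : z ≠ b * y := fun h => hRQ (by rw [← hz, h, hbyQ])
          rw [hρz z hzx hzy, hτD z (hz ▸ hRD)]
          exact hz'
        have h9 : {S | S ∈ D ∧ T.Adj R S}.ncard ≤ {S | S ∈ insert Q D ∧ T.Adj R S}.ncard := by
          refine Set.ncard_le_ncard ?_ (Set.toFinite _)
          exact fun S hS => ⟨Or.inr hS.1, hS.2⟩
        omega

/-- A Hamiltonian cycle from a connected graph of small degree on the cosets. -/
theorem ham_of_graph (hA : ∀ x ∈ A, x⁻¹ ∈ A) (hH : ∀ h ∈ H, ∀ a ∈ A, h⁻¹ * a * h ∈ A)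
    {c : Perm G} (hc : Good A H c)
    {T : SimpleGraph (G ⧸ H)} (hT : T ≤ cosetGraph A H hA) (hconn : T.Connected)
    (hdeg : ∀ P, dg T P ≤ Nat.card H) :
    ∃ σ : Perm G, (∀ x, x⁻¹ * σ x ∈ A) ∧ ∀ x y, σ.SameCycle x y := by
  classical
  -- a maximal state
  obtain ⟨D, hD1, hDmax⟩ : ∃ D : Set (G ⧸ H), (State A H T D ∧ ((1 : G) : G ⧸ H) ∈ D) ∧
      ∀ D', (State A H T D' ∧ ((1 : G) : G ⧸ H) ∈ D') → D'.ncard ≤ D.ncard := by
    have hne : {D : Set (G ⧸ H) | State A H T D ∧ ((1 : G) : G ⧸ H) ∈ D}.Nonempty :=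
      ⟨_, state_init hc T, rfl⟩
    obtain ⟨D, hD, hmax⟩ := Set.exists_max_image _ (fun D : Set (G ⧸ H) => D.ncard)
      (Set.toFinite _) hne
    exact ⟨D, hD, hmax⟩
  have hDu : D = Set.univ := by
    by_contra hcon
    obtain ⟨R, hR⟩ := (Set.ne_univ_iff_exists_notMem D).1 hcon
    have h1 : Relation.ReflTransGen (St T ∅) R ((1 : G) : G ⧸ H) :=
      (reach_iff T _ _).2 (hconn.preconnected _ _)
    obtain ⟨w, z, hw, hz, hwz, -⟩ := first_entrance D h1 hR hD1.2
    have h2 := state_step hA hH hT hdeg hD1.1 hz hw hwz.1.symm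
    have h3 := hDmax _ ⟨h2, Or.inr hD1.2⟩
    rw [Set.ncard_insert_of_notMem hw (Set.toFinite _)] at h3
    omega
  obtain ⟨σ, κ, -, h2, h3, -⟩ := hD1.1
  refine ⟨σ, fun x => h2 x ?_, fun x y => h3 x y ?_ ?_⟩
  all_goals rw [hDu]; exact Set.mem_univ _

omit [Finite G] in
/-- The coset graph is connected. -/
lemma coset_connected (hA : ∀ x ∈ A, x⁻¹ ∈ A) (hgen : Subgroup.closure A = ⊤) :
    (cosetGraph A H hA).Connected := by
  have key : ∀ g : G, (cosetGraph A H hA).Reachable ((1 : G) : G ⧸ H) (g : G ⧸ H) := by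
    intro g
    have hg : g ∈ Subgroup.closure A := by rw [hgen]; trivial
    have step : ∀ g a : G, a ∈ A → (cosetGraph A H hA).Reachable ((1 : G) : G ⧸ H) (g : G ⧸ H) →
        (cosetGraph A H hA).Reachable ((1 : G) : G ⧸ H) ((g * a : G) : G ⧸ H) := by
      intro g a ha h
      by_cases he : (g : G ⧸ H) = ((g * a : G) : G ⧸ H)
      · rw [← he]
        exact h
      · exact h.trans (SimpleGraph.Adj.reachable ⟨he, g, a, ha, rfl, rfl⟩)
    induction hg using Subgroup.closure_induction_right with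
    | one => exact SimpleGraph.Reachable.refl _
    | mul_right g _ a ha ih => exact step g a ha ih
    | mul_inv_cancel g _ a ha ih => exact step g a⁻¹ (hA a ha) ih
  have : Nonempty (G ⧸ H) := ⟨((1 : G) : G ⧸ H)⟩
  refine ⟨fun P Q => ?_⟩
  obtain ⟨g, rfl⟩ := QuotientGroup.mk_surjective P
  obtain ⟨g', rfl⟩ := QuotientGroup.mk_surjective Q
  exact (key g).symm.trans (key g')

omit [Finite G] in
/-- The coset graph is vertex transitive. -/
lemma coset_transitive (hA : ∀ x ∈ A, x⁻¹ ∈ A) (P Q : G ⧸ H) :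
    ∃ φ : cosetGraph A H hA ≃g cosetGraph A H hA, φ P = Q := by
  obtain ⟨g, rfl⟩ := QuotientGroup.mk_surjective P
  obtain ⟨g', rfl⟩ := QuotientGroup.mk_surjective Q
  have hadj : ∀ (k : G) (R S : G ⧸ H), (cosetGraph A H hA).Adj R S →
      (cosetGraph A H hA).Adj (k • R) (k • S) := by
    rintro k R S ⟨h1, x, a, ha, rfl, rfl⟩
    refine ⟨fun h => h1 (MulAction.injective k h), k * x, a, ha, rfl, ?_⟩
    rw [mul_assoc]
    rfl
  refine ⟨⟨MulAction.toPerm (g' * g⁻¹), ?_⟩, ?_⟩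
  · intro R S
    constructor
    · intro h
      have := hadj (g' * g⁻¹)⁻¹ _ _ h
      rwa [MulAction.toPerm_apply, MulAction.toPerm_apply, inv_smul_smul, inv_smul_smul] at this
    · exact hadj _ R S
  · change (((g' * g⁻¹) * g : G) : G ⧸ H) = (g' : G ⧸ H)
    rw [inv_mul_cancel_right]

/-- **The lifting theorem.** -/
theorem lift_ham (hA : ∀ x ∈ A, x⁻¹ ∈ A) (hgen : Subgroup.closure A = ⊤)
    (hH : ∀ h ∈ H, ∀ a ∈ A, h⁻¹ * a * h ∈ A) (h3 : 3 ≤ Nat.card H)
    {c : Perm G} (hc : Good A H c) :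
    ∃ σ : Perm G, (∀ x, x⁻¹ * σ x ∈ A) ∧ ∀ x y, σ.SameCycle x y := by
  classical
  have : Fintype (G ⧸ H) := Fintype.ofFinite _
  obtain ⟨T, hT, hTc, hTd⟩ := transitive_three (cosetGraph A H hA) (coset_connected hA hgen)
    (coset_transitive hA)
  exact ham_of_graph hA hH hc hT hTc fun P => (hTd P).trans h3

end Pool.Agent.X250.Ham
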