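import Mathlib
import Pool.Agent.X250.Ham.Lift

/-!
# Two normalising generators
-/

namespace Pool.Agent.X250.Ham

open Equiv Equiv.Perm

variable {G : Type*} [Group G] {A : Set G}

open scoped Classical in
/-- The Hamiltonian cycle of a cyclic group. -/
lemma good_cyclic (x : G) (hx : x ∈ A) : ∃ c : Perm G, Good A (Subgroup.zpowers x) c := by
  have hxH : x ∈ Subgroup.zpowers x := Subgroup.mem_zpowers x
  let c : Perm G :=
    { toFun := fun h => if h ∈ Subgroup.zpowers x then h * x else h
      invFun := fun h => if h ∈ Subgroup.zpowers x then h * x⁻¹ else h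
      left_inv := by
        intro h
        by_cases hh : h ∈ Subgroup.zpowers x
        · simp only [hh, if_true, (Subgroup.zpowers x).mul_mem hh hxH]
          group
        · simp only [hh, if_false]
      right_inv := by
        intro h
        by_cases hh : h ∈ Subgroup.zpowers x
        · simp only [hh, if_true, (Subgroup.zpowers x).mul_mem hh ((Subgroup.zpowers x).inv_mem hxH)]
          group
        · simp only [hh, if_false] }
  have hc : ∀ h, c h = if h ∈ Subgroup.zpowers x then h * x else h := fun h => rfl
  have hstep : ∀ h ∈ Subgroup.zpowers x, c.SameCycle h (h * x) := by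
    intro h hh
    have : h * x = c h := by rw [hc, if_pos hh]
    rw [this]
    exact (sameCycle_apply_right).2 (SameCycle.refl _ _)
  refine ⟨c, ?_, ?_, ?_⟩
  · intro h hh
    rw [hc, if_neg hh]
  · intro h hh
    rw [hc, if_pos hh, inv_mul_cancel_left]
    exact hx
  · intro h hh
    obtain ⟨i, rfl⟩ := Subgroup.mem_zpowers_iff.1 hh
    clear hh
    induction i using Int.induction_on with
    | zero => rw [zpow_zero]
    | succ i ih =>
      rw [zpow_add, zpow_one]
      exact ih.trans (hstep _ (Subgroup.zpow_mem_zpowers x _))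
    | pred i ih =>
      refine ih.trans (SameCycle.symm ?_)
      have h1 := hstep (x ^ (-(i : ℤ) - 1)) (Subgroup.zpow_mem_zpowers x _)
      have h2 : x ^ (-(i : ℤ) - 1) * x = x ^ (-(i : ℤ)) := by
        rw [zpow_sub_one, inv_mul_cancel_right]
      rwa [h2] at h1

section Dihedral

variable {x y : G}

lemma inv_of_inv (hx : x * x = 1) : x⁻¹ = x := inv_eq_of_mul_eq_one_right hx

lemma notMem_R (hx : x * x = 1) (hy : y * y = 1) (hx1 : x ≠ 1) (hy1 : y ≠ 1) :
    x ∉ Subgroup.zpowers (x * y) := by
  intro h
  obtain ⟨k, hk⟩ := Subgroup.mem_zpowers_iff.1 h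
  have h1 : x * (x * y) = (x * y) * x := by
    have : Commute ((x * y) ^ k) (x * y) := (Commute.refl (x * y)).zpow_left k
    rw [hk] at this
    exact this
  have h2 : x * y = y * x := by
    have h3 : x * (x * (x * y)) = x * ((x * y) * x) := by rw [h1]
    rw [← mul_assoc x x (x * y), hx, one_mul, ← mul_assoc, ← mul_assoc, hx, one_mul] at h3
    exact h3
  have h4 : (x * y) * (x * y) = 1 := by
    calc (x * y) * (x * y) = x * (y * x) * y := by group
      _ = x * (x * y) * y := by rw [h2]
      _ = (x * x) * (y * y) := by group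
      _ = 1 := by rw [hx, hy, one_mul]
  have h5 : ∀ j : ℤ, (x * y) ^ j = 1 ∨ (x * y) ^ j = x * y := by
    intro j
    rcases Int.even_or_odd' j with ⟨m, hm | hm⟩
    · left
      rw [hm, zpow_mul]
      have : (x * y) ^ (2 : ℤ) = 1 := by rw [zpow_two]; exact h4
      rw [this, one_zpow]
    · right
      rw [hm, zpow_add, zpow_mul]
      have : (x * y) ^ (2 : ℤ) = 1 := by rw [zpow_two]; exact h4
      rw [this, one_zpow, one_mul, zpow_one]
  rcases h5 k with h | h
  · exact hx1 (hk.symm.trans h)
  · rw [hk] at h
    exact hy1 (by simpa using h.symm)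

lemma notMem_R' (hx : x * x = 1) (hy : y * y = 1) (hx1 : x ≠ 1) (hy1 : y ≠ 1) :
    y ∉ Subgroup.zpowers (x * y) := by
  intro h
  apply notMem_R hx hy hx1 hy1
  have h1 := (Subgroup.zpowers (x * y)).mul_mem (Subgroup.mem_zpowers (x * y)) h
  rwa [mul_assoc, hy, mul_one] at h1

lemma mem_R_or (hx : x * x = 1) (hy : y * y = 1) {h : G} (hh : h ∈ Subgroup.closure {x, y}) :
    h ∈ Subgroup.zpowers (x * y) ∨ h * x ∈ Subgroup.zpowers (x * y) := by
  set R := Subgroup.zpowers (x * y) with hR
  have hyx : y * x ∈ R := by
    have h1 : y * x = (x * y)⁻¹ := by rw [mul_inv_rev, inv_of_inv hx, inv_of_inv hy]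
    rw [h1]
    exact R.inv_mem (Subgroup.mem_zpowers _)
  have hxy : x * y ∈ R := Subgroup.mem_zpowers _
  have step : ∀ g b : G, (b = x ∨ b = y) → (g ∈ R ∨ g * x ∈ R) → (g * b ∈ R ∨ g * b * x ∈ R) := by
    rintro g b (rfl | rfl) (h | h)
    · right
      rw [mul_assoc, hx, mul_one]
      exact h
    · left
      exact h
    · right
      rw [mul_assoc]
      exact R.mul_mem h hyx
    · left
      have h1 := R.mul_mem h hxy
      rwa [mul_assoc, ← mul_assoc x x, hx, one_mul] at h1
  induction hh using Subgroup.closure_induction_right with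
  | one => exact Or.inl R.one_mem
  | mul_right g _ b hb ih => exact step g b hb ih
  | mul_inv_cancel g _ b hb ih =>
    have hb' : b⁻¹ = x ∨ b⁻¹ = y := by
      rcases hb with rfl | hb
      · exact Or.inl (inv_of_inv hx)
      · rw [Set.mem_singleton_iff] at hb
        subst hb
        exact Or.inr (inv_of_inv hy)
    exact step g b⁻¹ hb' ih

open scoped Classical in
/-- The Hamiltonian cycle of a dihedral group. -/
lemma good_dihedral (hxA : x ∈ A) (hyA : y ∈ A) (hx : x * x = 1) (hy : y * y = 1) (hx1 : x ≠ 1)
    (hy1 : y ≠ 1) : ∃ c : Perm G, Good A (Subgroup.closure {x, y}) c := by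
  set H := Subgroup.closure ({x, y} : Set G) with hH
  set R := Subgroup.zpowers (x * y) with hR
  have hxH : x ∈ H := Subgroup.subset_closure (Or.inl rfl)
  have hyH : y ∈ H := Subgroup.subset_closure (Or.inr rfl)
  have hRH : R ≤ H := by
    rw [hR, Subgroup.zpowers_le]
    exact H.mul_mem hxH hyH
  have hxR : x ∉ R := notMem_R hx hy hx1 hy1
  have hyR : y ∉ R := notMem_R' hx hy hx1 hy1
  have hor : ∀ h ∈ H, h ∉ R → h * x ∈ R ∧ h * y ∈ R := by
    intro h hh hhR
    rcases mem_R_or hx hy hh with h1 | h1
    · exact absurd h1 hhR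
    · refine ⟨h1, ?_⟩
      have h2 := R.mul_mem h1 (Subgroup.mem_zpowers (x * y))
      rwa [mul_assoc, ← mul_assoc x x, hx, one_mul] at h2
  have hnx : ∀ h ∈ R, h * x ∉ R := fun h hh h1 => hxR (by
    have := R.mul_mem (R.inv_mem hh) h1
    rwa [inv_mul_cancel_left] at this)
  have hny : ∀ h ∈ R, h * y ∉ R := fun h hh h1 => hyR (by
    have := R.mul_mem (R.inv_mem hh) h1
    rwa [inv_mul_cancel_left] at this)
  let c : Perm G :=
    { toFun := fun h => if h ∈ H then (if h ∈ R then h * x else h * y) else h
      invFun := fun h => if h ∈ H then (if h ∈ R then h * y else h * x) else h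
      left_inv := by
        intro h
        by_cases hh : h ∈ H
        · by_cases hhR : h ∈ R
          · simp only [hh, hhR, if_true, H.mul_mem hh hxH, hnx h hhR, if_false]
            rw [mul_assoc, hx, mul_one]
          · simp only [hh, hhR, if_true, if_false, H.mul_mem hh hyH, (hor h hh hhR).2]
            rw [mul_assoc, hy, mul_one]
        · simp only [hh, if_false]
      right_inv := by
        intro h
        by_cases hh : h ∈ H
        · by_cases hhR : h ∈ R
          · simp only [hh, hhR, if_true, H.mul_mem hh hyH, hny h hhR, if_false]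
            rw [mul_assoc, hy, mul_one]
          · simp only [hh, hhR, if_true, if_false, H.mul_mem hh hxH, (hor h hh hhR).1]
            rw [mul_assoc, hx, mul_one]
        · simp only [hh, if_false] }
  have hc : ∀ h, c h = if h ∈ H then (if h ∈ R then h * x else h * y) else h := fun h => rfl
  have hstep : ∀ h ∈ R, c.SameCycle h (h * x) := by
    intro h hh
    have : h * x = c h := by rw [hc, if_pos (hRH hh), if_pos hh]
    rw [this]
    exact (sameCycle_apply_right).2 (SameCycle.refl _ _)
  have hstep2 : ∀ h ∈ R, c.SameCycle h (h * (x * y)) := by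
    intro h hh
    refine (hstep h hh).trans ?_
    have : h * (x * y) = c (h * x) := by
      rw [hc, if_pos (H.mul_mem (hRH hh) hxH), if_neg (hnx h hh), mul_assoc]
    rw [this]
    exact (sameCycle_apply_right).2 (SameCycle.refl _ _)
  have hRc : ∀ r ∈ R, c.SameCycle 1 r := by
    intro r hr
    obtain ⟨i, rfl⟩ := Subgroup.mem_zpowers_iff.1 hr
    clear hr
    induction i using Int.induction_on with
    | zero => rw [zpow_zero]
    | succ i ih =>
      rw [zpow_add, zpow_one]
      exact ih.trans (hstep2 _ (Subgroup.zpow_mem_zpowers _ _))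
    | pred i ih =>
      refine ih.trans (SameCycle.symm ?_)
      have h1 := hstep2 ((x * y) ^ (-(i : ℤ) - 1)) (Subgroup.zpow_mem_zpowers _ _)
      have h2 : (x * y) ^ (-(i : ℤ) - 1) * (x * y) = (x * y) ^ (-(i : ℤ)) := by
        rw [zpow_sub_one, inv_mul_cancel_right]
      rwa [h2] at h1
  refine ⟨c, ?_, ?_, ?_⟩
  · intro h hh
    rw [hc, if_neg hh]
  · intro h hh
    rw [hc, if_pos hh]
    split_ifs
    · rw [inv_mul_cancel_left]
      exact hxA
    · rw [inv_mul_cancel_left]
      exact hyA
  · intro h hh
    by_cases hhR : h ∈ R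
    · exact hRc h hhR
    · have h1 := (hor h hh hhR).1
      have h2 := (hRc _ h1).trans (hstep _ h1)
      rwa [mul_assoc, hx, mul_one] at h2

end Dihedral

/-- **Two normalising generators.** -/
theorem ham_of_two [Finite G] (hA : ∀ a ∈ A, a⁻¹ ∈ A) (hgen : Subgroup.closure A = ⊤)
    {x y : G} (hxA : x ∈ A) (hyA : y ∈ A) (hxy : x ≠ y) (hx1 : x ≠ 1) (hy1 : y ≠ 1)
    (hx : ∀ a ∈ A, x⁻¹ * a * x ∈ A) (hy : ∀ a ∈ A, y⁻¹ * a * y ∈ A) :
    ∃ σ : Perm G, (∀ g, g⁻¹ * σ g ∈ A) ∧ ∀ g h, σ.SameCycle g h := by
  -- a normalising element of order at least three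
  have hcyc : ∀ z : G, z ∈ A → z * z ≠ 1 → (∀ a ∈ A, z⁻¹ * a * z ∈ A) →
      ∃ σ : Perm G, (∀ g, g⁻¹ * σ g ∈ A) ∧ ∀ g h, σ.SameCycle g h := by
    intro z hzA hz2 hz
    obtain ⟨c, hc⟩ := good_cyclic z hzA
    refine lift_ham hA hgen ?_ ?_ hc
    · intro h hh
      have h1 : h ∈ Submonoid.powers z := by
        rw [(isOfFinOrder_of_finite z).mem_powers_iff_mem_zpowers]
        exact hh
      obtain ⟨n, rfl⟩ := (Submonoid.mem_powers_iff _ _).1 h1
      clear hh h1
      induction n with
      | zero =>
        intro a ha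
        simpa using ha
      | succ n ih =>
        intro a ha
        have h2 := hz _ (ih a ha)
        have h3 : (z ^ (n + 1))⁻¹ * a * z ^ (n + 1) = z⁻¹ * ((z ^ n)⁻¹ * a * z ^ n) * z := by
          rw [pow_succ]
          group
        rw [h3]
        exact h2
    · rw [Nat.card_zpowers]
      have h1 : orderOf z ≠ 0 := (orderOf_pos z).ne'
      have h2 : orderOf z ≠ 1 := by
        intro h
        rw [orderOf_eq_one_iff] at h
        exact hz2 (by rw [h, one_mul])
      have h3 : orderOf z ≠ 2 := by
        intro h
        have := pow_orderOf_eq_one z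
        rw [h, pow_two] at this
        exact hz2 this
      omega
  by_cases hx2 : x * x = 1
  · by_cases hy2 : y * y = 1
    · obtain ⟨c, hc⟩ := good_dihedral hxA hyA hx2 hy2 hx1 hy1
      refine lift_ham hA hgen ?_ ?_ hc
      · intro h hh
        induction hh using Subgroup.closure_induction_right with
        | one =>
          intro a ha
          simpa using ha
        | mul_right g _ b hb ih =>
          intro a ha
          have h3 : (g * b)⁻¹ * a * (g * b) = b⁻¹ * (g⁻¹ * a * g) * b := by group
          rw [h3]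
          rcases hb with rfl | hb
          · exact hx _ (ih a ha)
          · rw [Set.mem_singleton_iff] at hb
            subst hb
            exact hy _ (ih a ha)
        | mul_inv_cancel g _ b hb ih =>
          intro a ha
          have hb' : b⁻¹ = b := by
            rcases hb with rfl | hb
            · exact inv_of_inv hx2
            · rw [Set.mem_singleton_iff] at hb
              subst hb
              exact inv_of_inv hy2
          rw [hb']
          have h3 : (g * b)⁻¹ * a * (g * b) = b⁻¹ * (g⁻¹ * a * g) * b := by group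
          rw [h3]
          rcases hb with rfl | hb
          · exact hx _ (ih a ha)
          · rw [Set.mem_singleton_iff] at hb
            subst hb
            exact hy _ (ih a ha)
      · have h1 : ({1, x, y} : Set G) ⊆ (Subgroup.closure {x, y} : Subgroup G) := by
          intro z hz
          rcases hz with rfl | rfl | hz
          · exact Subgroup.one_mem _
          · exact Subgroup.subset_closure (Or.inl rfl)
          · exact Subgroup.subset_closure (Or.inr hz)
        have h2 := Set.ncard_le_ncard h1 (Set.toFinite _)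
        have h3 : ({1, x, y} : Set G).ncard = 3 :=
          Set.ncard_eq_three.2 ⟨1, x, y, hx1.symm, hy1.symm, hxy, rfl⟩
        rw [h3] at h2
        exact h2
    · exact hcyc y hyA hy2 hy
  · exact hcyc x hxA hx2 hx

end Pool.Agent.X250.Ham
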